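import Pool.Agent.H182R2.CG.GDefs

set_option autoImplicit false

open Finset Filter Topology

namespace Pool.Agent.H182R2.CG

variable {X : Type*} [NormedAddCommGroup X] [NormedSpace ℝ X]

theorem G2_lower (S : GCoord X) (m : ℕ) (v : ℕ → X) (G : ℕ → Finset ℕ) (c : ℝ) (hc : 0 < c)
    (hlt : ∀ i j, i < j → j < m → ∀ a ∈ G i, ∀ d ∈ G j, a < d)
    (hU : (range m).biUnion G ∈ S.fam)
    (hbig : ∀ j < m, c ≤ ∑ k ∈ G j, |S.co k (v j)|)
    (hoff : ∀ i j, i < m → j < m → i ≠ j → ∑ k ∈ G j, |S.co k (v i)| ≤ c / (2 * m))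
    (θ : ℕ → ℝ) :
    c / 2 * ∑ j ∈ range m, |θ j| ≤ ‖∑ j ∈ range m, θ j • v j‖ := by
  classical
  have hdisj : Set.PairwiseDisjoint (↑(range m)) G := by
    intro i hi j hj hne
    have hi' := mem_range.1 (mem_coe.1 hi)
    have hj' := mem_range.1 (mem_coe.1 hj)
    show Disjoint (G i) (G j)
    rw [Finset.disjoint_left]
    intro a ha ha'
    rcases lt_or_gt_of_ne hne with h | h
    · exact lt_irrefl _ (hlt i j h hj' a ha a ha')
    · exact lt_irrefl _ (hlt j i h hi' a ha' a ha)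
  have h1 := S.le (∑ j ∈ range m, θ j • v j) _ hU
  rw [Finset.sum_biUnion hdisj] at h1
  refine le_trans ?_ h1
  obtain ⟨Θ, hΘ⟩ : ∃ Θ, Θ = ∑ j ∈ range m, |θ j| := ⟨_, rfl⟩
  have hΘ0 : 0 ≤ Θ := by
    rw [hΘ]
    exact Finset.sum_nonneg fun _ _ => abs_nonneg _
  have h2 : ∀ j ∈ range m, |θ j| * c - c / (2 * m) * Θ ≤
      ∑ k ∈ G j, |S.co k (∑ i ∈ range m, θ i • v i)| := by
    intro j hj
    have hj' := Finset.mem_range.mp hj
    have hk : ∀ k ∈ G j, |θ j| * |S.co k (v j)| - ∑ i ∈ (range m).erase j, |θ i| * |S.co k (v i)| ≤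
        |S.co k (∑ i ∈ range m, θ i • v i)| := by
      intro k _
      rw [← Finset.add_sum_erase _ _ hj, map_add, map_smul, smul_eq_mul]
      have b1 : |S.co k (∑ i ∈ (range m).erase j, θ i • v i)| ≤
          ∑ i ∈ (range m).erase j, |θ i| * |S.co k (v i)| := by
        rw [map_sum]
        refine (Finset.abs_sum_le_sum_abs _ _).trans (Finset.sum_le_sum fun i _ => ?_)
        rw [map_smul, smul_eq_mul, abs_mul]
      have b2 := abs_sub_abs_le_abs_sub (θ j * S.co k (v j))
        (-(S.co k (∑ i ∈ (range m).erase j, θ i • v i)))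
      rw [abs_neg, sub_neg_eq_add, abs_mul] at b2
      linarith
    have hsum := Finset.sum_le_sum hk
    rw [Finset.sum_sub_distrib, Finset.sum_comm, ← Finset.mul_sum] at hsum
    have e4 : ∑ i ∈ (range m).erase j, ∑ k ∈ G j, |θ i| * |S.co k (v i)| ≤ c / (2 * m) * Θ := by
      rw [hΘ, Finset.mul_sum]
      refine (Finset.sum_le_sum (g := fun i => c / (2 * m) * |θ i|) fun i hi => ?_).trans ?_
      · rw [Finset.mem_erase, Finset.mem_range] at hi
        rw [← Finset.mul_sum, mul_comm]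
        exact mul_le_mul_of_nonneg_right (hoff i j hi.2 hj' hi.1) (abs_nonneg _)
      · refine Finset.sum_le_sum_of_subset_of_nonneg (Finset.erase_subset _ _) fun i _ _ => ?_
        positivity
    have e5 : |θ j| * c ≤ |θ j| * ∑ k ∈ G j, |S.co k (v j)| :=
      mul_le_mul_of_nonneg_left (hbig j hj') (abs_nonneg _)
    linarith
  refine le_trans ?_ (Finset.sum_le_sum h2)
  rw [Finset.sum_sub_distrib, ← Finset.sum_mul, ← hΘ, Finset.sum_const, Finset.card_range,
    nsmul_eq_mul]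
  have h3 : (m : ℝ) * (c / (2 * m) * Θ) ≤ c / 2 * Θ := by
    rcases Nat.eq_zero_or_pos m with h0 | h0
    · subst h0
      simp only [Nat.cast_zero, zero_mul]
      positivity
    · have hm : (m : ℝ) ≠ 0 := by positivity
      apply le_of_eq
      field_simp
  linarith

end Pool.Agent.H182R2.CG
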