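import Pool.Agent.H182R2.CG.GDefs
import Pool.Agent.H182R2.CM.G2_lower

namespace Pool.Agent.H182R2.CG

open Finset Filter Topology

variable {X : Type*} [NormedAddCommGroup X] [NormedSpace ℝ X]

/-- One step of the construction. -/
theorem G3_step (S : GCoord X) (v : ℕ → X)
    (hnull : ∀ p, Tendsto (fun k => S.co p (v k)) atTop (𝓝 0)) (c : ℝ) (b : ℕ)
    (hbig : ∀ K, ∃ k ≥ K, ¬ S.Flat b c (v k)) (δ : ℝ) (hδ : 0 < δ) (K P : ℕ) :
    ∃ (k : ℕ) (G : Finset ℕ) (n : ℕ), K < k ∧ (∑ q ∈ range (P + 1), |S.co q (v k)| ≤ δ) ∧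
      c - δ ≤ ∑ q ∈ G, |S.co q (v k)| ∧ G ∈ loc S.fam b ∧ (∀ q ∈ G, P < q) ∧ (∀ q ∈ G, q ≤ n) ∧
      (∀ F ∈ S.fam, (∀ q ∈ F, n ≤ q) → ∑ q ∈ F, |S.co q (v k)| ≤ δ) := by
  classical
  have hlim : Tendsto (fun k => ∑ q ∈ range (P + 1), |S.co q (v k)|) atTop (𝓝 0) := by
    have := tendsto_finset_sum (range (P + 1)) (fun p _ => (hnull p).abs)
    simpa using this
  obtain ⟨K1, hK1⟩ := eventually_atTop.1 (hlim.eventually (gt_mem_nhds hδ))
  obtain ⟨k, hk, hnf⟩ := hbig (max K1 (K + 1))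
  have hsm : ∑ q ∈ range (P + 1), |S.co q (v k)| ≤ δ := (hK1 k ((le_max_left _ _).trans hk)).le
  unfold GCoord.Flat at hnf
  push Not at hnf
  obtain ⟨F, hF, ⟨p, hp, hpb⟩, hFc⟩ := hnf
  obtain ⟨n, hn⟩ := S.tail (v k) δ hδ
  refine ⟨k, F.filter (fun q => P < q), max n (F.sup id), ?_, hsm, ?_, ?_, ?_, ?_, ?_⟩
  · have := le_max_right K1 (K + 1)
    omega
  · have a1 := Finset.sum_filter_add_sum_filter_not F (fun q => P < q) (fun q => |S.co q (v k)|)
    have a2 : ∑ q ∈ F.filter (fun q => ¬ P < q), |S.co q (v k)| ≤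
        ∑ q ∈ range (P + 1), |S.co q (v k)| := by
      refine Finset.sum_le_sum_of_subset_of_nonneg ?_ fun _ _ _ => abs_nonneg _
      intro q hq
      rw [mem_range]
      have := (mem_filter.mp hq).2
      omega
    linarith
  · exact ⟨F, hF, Finset.filter_subset _ _, p, hp, hpb⟩
  · intro q hq
    exact (Finset.mem_filter.1 hq).2
  · intro q hq
    have : q ≤ F.sup id := Finset.le_sup (f := id) (Finset.mem_filter.1 hq).1
    exact this.trans (le_max_right _ _)
  · intro F' hF' hq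
    exact hn F' hF' fun q hq' => (le_max_left _ _).trans (hq q hq')

theorem G3_spread (S : GCoord X) (v : ℕ → X)
    (hnull : ∀ p, Tendsto (fun k => S.co p (v k)) atTop (𝓝 0)) (c : ℝ) (hc : 0 < c) (b : ℕ)
    (hbig : ∀ K, ∃ k ≥ K, ¬ S.Flat b c (v k)) (m L : ℕ) :
    ∃ k : ℕ → ℕ, StrictMono k ∧ (∀ j, L ≤ k j) ∧
      ∀ θ : ℕ → ℝ, c / 4 * ∑ j ∈ range m, |θ j| ≤ ‖∑ j ∈ range m, θ j • v (k j)‖ := by
  classical
  obtain ⟨N, hN⟩ := S.mult b m
  obtain ⟨δ, hδ0, hδc, hδm⟩ : ∃ δ : ℝ, 0 < δ ∧ δ ≤ c / 2 ∧ (0 < m → δ ≤ c / 2 / (2 * m)) := by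
    refine ⟨c / 2 / (2 * (m + 1)), by positivity, ?_, ?_⟩
    · rw [div_le_iff₀ (by positivity)]
      have : (0 : ℝ) ≤ m := Nat.cast_nonneg m
      nlinarith
    · intro hm
      have hm' : (0 : ℝ) < m := Nat.cast_pos.2 hm
      apply div_le_div_of_nonneg_left (by positivity) (by positivity)
      linarith
  choose fk fG fn h1 h2 h3 h4 h5 h6 h7 using G3_step S v hnull c b hbig δ hδ0
  obtain ⟨st, hst0, hst⟩ : ∃ st : ℕ → ℕ × ℕ, st 0 = (L, N) ∧
      ∀ j, st (j + 1) = (fk (st j).1 (st j).2, max (st j).2 (fn (st j).1 (st j).2)) :=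
    ⟨fun j => Nat.rec (L, N) (fun _ s => (fk s.1 s.2, max s.2 (fn s.1 s.2))) j,
      rfl, fun j => rfl⟩
  have hPmono : Monotone (fun j => (st j).2) := by
    apply monotone_nat_of_le_succ
    intro j
    show (st j).2 ≤ (st (j + 1)).2
    rw [hst j]
    exact le_max_left _ _
  have hPN : ∀ j, N ≤ (st j).2 := by
    intro j
    have := hPmono (Nat.zero_le j)
    simp only [hst0] at this
    exact this
  have hKlt : ∀ j, (st j).1 < (st (j + 1)).1 := by
    intro j
    rw [hst j]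
    exact h1 _ _
  have hKmono : StrictMono (fun j => (st j).1) := strictMono_nat_of_lt_succ hKlt
  have hnP' : ∀ i j, i < j → fn (st i).1 (st i).2 ≤ (st j).2 := by
    intro i j hij
    have h8 := hPmono (Nat.succ_le_of_lt hij)
    have h9 : fn (st i).1 (st i).2 ≤ (st (i + 1)).2 := by
      rw [hst i]
      exact le_max_right _ _
    exact h9.trans h8
  have hlt : ∀ i j, i < j → ∀ a ∈ fG (st i).1 (st i).2, ∀ d ∈ fG (st j).1 (st j).2, a < d := by
    intro i j hij a ha d hd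
    have a1 := h6 _ _ a ha
    have a2 := h5 _ _ d hd
    have a3 := hnP' i j hij
    omega
  refine ⟨fun j => fk (st j).1 (st j).2, ?_, ?_, ?_⟩
  · intro i j hij
    have h5 := hKmono (Nat.succ_lt_succ hij)
    simp only [Nat.succ_eq_add_one, hst i, hst j] at h5
    exact h5
  · intro j
    have h5 := hKmono.monotone (Nat.zero_le j)
    simp only [hst0] at h5
    have h6 := h1 (st j).1 (st j).2
    show L ≤ fk (st j).1 (st j).2
    omega
  · intro θ
    have hmain := G2_lower S m (fun j => v (fk (st j).1 (st j).2))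
      (fun j => fG (st j).1 (st j).2) (c / 2) (by positivity) (fun i j hij _ => hlt i j hij)
      (hN _ (fun i _ => ⟨h4 _ _, fun q hq => (hPN i).trans (h5 _ _ q hq).le⟩)
        (fun i j hij _ => hlt i j hij)) ?_ ?_ θ
    · have e : c / 4 = c / 2 / 2 := by ring
      rw [e]
      exact hmain
    · intro j _
      have := h3 (st j).1 (st j).2
      show c / 2 ≤ ∑ k ∈ fG (st j).1 (st j).2, |S.co k (v (fk (st j).1 (st j).2))|
      linarith
    · intro i j hi hj hij
      refine le_trans ?_ (hδm (by omega))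
      show ∑ k ∈ fG (st j).1 (st j).2, |S.co k (v (fk (st i).1 (st i).2))| ≤ δ
      have hGfam : fG (st j).1 (st j).2 ∈ S.fam := by
        obtain ⟨F, hF, hsub, -⟩ := h4 (st j).1 (st j).2
        exact S.her F hF _ hsub
      rcases lt_or_gt_of_ne hij with h | h
      · apply h7 _ _ _ hGfam
        intro q hq
        have a2 := h5 _ _ q hq
        have a3 := hnP' i j h
        omega
      · refine le_trans (Finset.sum_le_sum_of_subset_of_nonneg ?_ fun _ _ _ => abs_nonneg _)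
          (h2 (st i).1 (st i).2)
        intro q hq
        rw [mem_range]
        have a1 := h6 _ _ q hq
        have a3 := hnP' j i h
        omega

end Pool.Agent.H182R2.CG
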