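import Pool.Agent.H182R2.CG.GDefs

namespace Pool.Agent.H182R2.CG

open Finset Filter Topology

section

variable {X : Type*} [NormedAddCommGroup X] [NormedSpace ℝ X]

/-- local smallness -/
def G4Sm (S : GCoord X) (F : Finset ℕ) (ε : ℝ) (x : X) : Prop :=
  ∀ G : Finset ℕ, (∀ i ∈ G, ∀ f ∈ F, f < i) → F ∪ G ∈ S.fam → ∑ k ∈ G, |S.co k x| ≤ ε

theorem G4Sm_convex (S : GCoord X) (F : Finset ℕ) (ε : ℝ) : Convex ℝ {x | G4Sm S F ε x} := by
  intro x hx y hy a b ha hb hab G hG hFG
  have h1 := hx G hG hFG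
  have h2 := hy G hG hFG
  calc ∑ k ∈ G, |S.co k (a • x + b • y)| ≤ ∑ k ∈ G, (a * |S.co k x| + b * |S.co k y|) := by
        refine Finset.sum_le_sum fun k _ => ?_
        rw [map_add, map_smul, map_smul, smul_eq_mul, smul_eq_mul]
        refine (abs_add_le _ _).trans ?_
        rw [abs_mul, abs_mul, abs_of_nonneg ha, abs_of_nonneg hb]
    _ = a * ∑ k ∈ G, |S.co k x| + b * ∑ k ∈ G, |S.co k y| := by
        rw [Finset.sum_add_distrib, Finset.mul_sum, Finset.mul_sum]
    _ ≤ a * ε + b * ε := add_le_add (mul_le_mul_of_nonneg_left h1 ha)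
        (mul_le_mul_of_nonneg_left h2 hb)
    _ = ε := by rw [← add_mul, hab, one_mul]

/-- tails of convex hulls -/
def G4tl (D : ℕ → X) (L : ℕ) : Set X := convexHull ℝ (D '' Set.Ici L)

theorem G4tl_mono (D : ℕ → X) {L L' : ℕ} (h : L ≤ L') : G4tl D L' ⊆ G4tl D L :=
  convexHull_mono (Set.image_mono (Set.Ici_subset_Ici.2 h))

theorem G4tl_norm (D : ℕ → X) (M : ℝ) (hM : ∀ j, ‖D j‖ ≤ M) (L : ℕ) :
    ∀ x ∈ G4tl D L, ‖x‖ ≤ M := by
  intro x hx
  have h : G4tl D L ⊆ Metric.closedBall 0 M := by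
    refine convexHull_min ?_ (convex_closedBall 0 M)
    rintro _ ⟨j, -, rfl⟩
    simpa using hM j
  simpa using h hx

theorem G4tl_co (S : GCoord X) (D : ℕ → X) (p : ℕ) (δ : ℝ) (L : ℕ)
    (h : ∀ j ≥ L, |S.co p (D j)| ≤ δ) : ∀ x ∈ G4tl D L, |S.co p x| ≤ δ := by
  intro x hx
  have h' : G4tl D L ⊆ {x | |S.co p x| ≤ δ} := by
    refine convexHull_min ?_ ?_
    · rintro _ ⟨j, hj, rfl⟩
      exact h j hj
    · intro x hx y hy a b ha hb hab
      show |S.co p (a • x + b • y)| ≤ δ
      rw [map_add, map_smul, map_smul, smul_eq_mul, smul_eq_mul]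
      refine (abs_add_le _ _).trans ?_
      rw [abs_mul, abs_mul, abs_of_nonneg ha, abs_of_nonneg hb]
      calc a * |S.co p x| + b * |S.co p y| ≤ a * δ + b * δ :=
            add_le_add (mul_le_mul_of_nonneg_left hx ha) (mul_le_mul_of_nonneg_left hy hb)
        _ = δ := by rw [← add_mul, hab, one_mul]
  exact h' hx

/-- the property to be proved by induction -/
def G4P (S : GCoord X) (M : ℝ) (F : Finset ℕ) : Prop :=
  ∀ D : ℕ → X, (∀ j, ‖D j‖ ≤ M) → (∀ p, Tendsto (fun k => S.co p (D k)) atTop (𝓝 0)) →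
    ∀ ε : ℝ, 0 < ε → ∀ L : ℕ, ∃ x ∈ G4tl D L, G4Sm S F ε x

theorem G4_step1 (S : GCoord X) (M : ℝ) (F : Finset ℕ)
    (T : Finset ℕ) : (∀ k ∈ T, G4P S M (insert k F)) →
    ∀ D : ℕ → X, (∀ j, ‖D j‖ ≤ M) → (∀ p, Tendsto (fun k => S.co p (D k)) atTop (𝓝 0)) →
    ∀ ε : ℝ, 0 < ε → ∀ L : ℕ, ∃ x ∈ G4tl D L, ∀ k ∈ T, G4Sm S (insert k F) ε x := by
  classical
  induction T using Finset.induction_on with
  | empty =>
    intro _ D _ _ ε _ L
    exact ⟨D L, subset_convexHull ℝ _ ⟨L, Set.mem_Ici.2 le_rfl, rfl⟩, by simp⟩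
  | insert k T hk ih =>
    intro hT D hM hnull ε hε L
    have h1 := hT k (Finset.mem_insert_self k T)
    choose D' hD'1 hD'2 using fun i : ℕ => h1 D hM hnull ε hε (max i L)
    have hD'M : ∀ j, ‖D' j‖ ≤ M := fun j => G4tl_norm D M hM _ _ (hD'1 j)
    have hD'null : ∀ p, Tendsto (fun k => S.co p (D' k)) atTop (𝓝 0) := by
      intro p
      rw [Metric.tendsto_atTop]
      intro δ hδ
      obtain ⟨n, hn⟩ := Metric.tendsto_atTop.1 (hnull p) (δ / 2) (by positivity)
      refine ⟨n, fun j hj => ?_⟩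
      have h2 := G4tl_co S D p (δ / 2) (max j L) (fun i hi => by
        have := hn i (le_trans hj ((le_max_left j L).trans hi))
        rw [Real.dist_eq, sub_zero] at this
        exact this.le) (D' j) (hD'1 j)
      rw [Real.dist_eq, sub_zero]
      linarith
    obtain ⟨x, hx1, hx2⟩ := ih (fun k' hk' => hT k' (Finset.mem_insert_of_mem hk')) D' hD'M
      hD'null ε hε L
    refine ⟨x, ?_, ?_⟩
    · have : G4tl D' L ⊆ G4tl D L := by
        refine convexHull_min ?_ (convex_convexHull ℝ _)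
        rintro _ ⟨j, -, rfl⟩
        exact G4tl_mono D (le_max_right j L) (hD'1 j)
      exact this hx1
    · intro k' hk'
      rcases Finset.mem_insert.1 hk' with rfl | hk'
      · have : G4tl D' L ⊆ {x | G4Sm S (insert k' F) ε x} := by
          refine convexHull_min ?_ (G4Sm_convex S _ ε)
          rintro _ ⟨j, -, rfl⟩
          exact hD'2 j
        exact this hx1
      · exact hx2 k' hk'

theorem G4_step2 (S : GCoord X) (M : ℝ) (hM0 : 0 ≤ M) (F : Finset ℕ)
    (hF : ∀ k : ℕ, (∀ f ∈ F, f < k) → G4P S M (insert k F)) : G4P S M F := by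
  classical
  intro D hM hnull ε hε L
  have key : ∀ N : ℕ, ∃ z : X, (∃ y ∈ G4tl D L, z = (N : ℝ) • y) ∧
      ∀ G : Finset ℕ, (∀ i ∈ G, ∀ f ∈ F, f < i) → F ∪ G ∈ S.fam →
        ∑ k ∈ G, |S.co k z| ≤ M + N * (ε / 2) := by
    intro N
    induction N with
    | zero =>
      refine ⟨0, ⟨D L, subset_convexHull ℝ _ ⟨L, Set.mem_Ici.2 le_rfl, rfl⟩, by simp⟩, ?_⟩
      intro G _ _
      simpa using hM0
    | succ N ih =>
      obtain ⟨z, ⟨y, hy, hzy⟩, hz⟩ := ih
      obtain ⟨b, hb⟩ := S.tail z (ε / 4) (by positivity)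
      have hev : ∀ᶠ k in atTop, ∀ p ∈ range b, |S.co p (D k)| ≤ ε / 4 := by
        rw [Filter.eventually_all_finset]
        intro p _
        have h1 := (hnull p).abs
        rw [abs_zero] at h1
        exact h1.eventually_le_const (by positivity)
      obtain ⟨L', hL'⟩ := eventually_atTop.1 hev
      obtain ⟨x, hx1, hx2⟩ := G4_step1 S M F ((range b).filter (fun k => ∀ f ∈ F, f < k))
        (fun k hk => hF k (Finset.mem_filter.1 hk).2) D hM hnull (ε / 4) (by positivity)
        (max L L')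
      have hxL : x ∈ G4tl D L := G4tl_mono D (le_max_left _ _) hx1
      refine ⟨z + x, ⟨(1 / ((N : ℝ) + 1)) • ((N : ℝ) • y + x), ?_, ?_⟩, ?_⟩
      · have h1 : (1 / ((N : ℝ) + 1)) • ((N : ℝ) • y + x) =
            ((N : ℝ) / ((N : ℝ) + 1)) • y + (1 / ((N : ℝ) + 1)) • x := by
          rw [smul_add, smul_smul]
          congr 2
          ring
        rw [h1]
        refine (convex_convexHull ℝ _) hy hxL (by positivity) (by positivity) ?_
        field_simp
      · rw [smul_smul, hzy]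
        push_cast
        rw [mul_one_div_cancel (by positivity), one_smul]
      · intro G hG hFG
        rcases G.eq_empty_or_nonempty with rfl | hne
        · simp only [Finset.sum_empty]
          positivity
        obtain ⟨k, hk⟩ : ∃ k, k = G.min' hne := ⟨_, rfl⟩
        have hkG : k ∈ G := hk ▸ G.min'_mem hne
        have hkmin : ∀ i ∈ G, k ≤ i := fun i hi => hk ▸ G.min'_le i hi
        have hGfam : G ∈ S.fam := S.her _ hFG _ Finset.subset_union_right
        have hsum : ∑ i ∈ G, |S.co i (z + x)| ≤ ∑ i ∈ G, |S.co i z| + ∑ i ∈ G, |S.co i x| := by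
          rw [← Finset.sum_add_distrib]
          refine Finset.sum_le_sum fun i _ => ?_
          rw [map_add]
          exact abs_add_le _ _
        refine hsum.trans ?_
        push_cast
        have hNε : 0 ≤ (N : ℝ) * (ε / 2) := by positivity
        rcases le_or_gt b k with hbk | hbk
        · have h1 := hb G hGfam (fun i hi => hbk.trans (hkmin i hi))
          have h2 := (S.le x G hGfam).trans (G4tl_norm D M hM _ _ hxL)
          linarith
        · have h1 := hz G hG hFG
          have h2 : |S.co k x| ≤ ε / 4 := by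
            refine G4tl_co S D k (ε / 4) (max L L') (fun j hj => ?_) x hx1
            exact hL' j ((le_max_right _ _).trans hj) k (Finset.mem_range.2 hbk)
          have h3 : ∑ i ∈ G.erase k, |S.co i x| ≤ ε / 4 := by
            refine hx2 k (Finset.mem_filter.2 ⟨Finset.mem_range.2 hbk, hG k hkG⟩) (G.erase k) ?_ ?_
            · intro i hi f hf
              have hiG := Finset.mem_of_mem_erase hi
              rcases Finset.mem_insert.1 hf with rfl | hf
              · exact lt_of_le_of_ne (hkmin i hiG) (Finset.ne_of_mem_erase hi).symm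
              · exact hG i hiG f hf
            · have h4 : insert k F ∪ G.erase k = F ∪ G := by
                rw [Finset.insert_union, ← Finset.union_insert, Finset.insert_erase hkG]
              rw [h4]
              exact hFG
          have h4 := Finset.add_sum_erase G (fun i => |S.co i x|) hkG
          linarith
  obtain ⟨N, hN⟩ := exists_nat_gt (2 * M / ε)
  have hN0 : (0 : ℝ) < N := lt_of_le_of_lt (by positivity) hN
  obtain ⟨z, ⟨y, hy, hzy⟩, hz⟩ := key N
  refine ⟨y, hy, ?_⟩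
  intro G hG hFG
  have h1 := hz G hG hFG
  have h2 : ∑ k ∈ G, |S.co k z| = N * ∑ k ∈ G, |S.co k y| := by
    rw [Finset.mul_sum]
    refine Finset.sum_congr rfl fun k _ => ?_
    rw [hzy, map_smul, smul_eq_mul, abs_mul, abs_of_pos hN0]
  rw [h2] at h1
  rw [div_lt_iff₀ hε] at hN
  refine le_of_mul_le_mul_left ?_ hN0
  linarith

theorem G4_all (S : GCoord X) (M : ℝ) (hM0 : 0 ≤ M) (F : Finset ℕ) : G4P S M F := by
  classical
  by_contra hF
  have hstep : ∀ F : {F : Finset ℕ // ¬ G4P S M F}, ∃ k : ℕ, (∀ f ∈ F.1, f < k) ∧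
      ¬ G4P S M (insert k F.1) := by
    intro F
    by_contra hcon
    push Not at hcon
    exact F.2 (G4_step2 S M hM0 F.1 hcon)
  choose kk hk1 hk2 using hstep
  let st : ℕ → {F : Finset ℕ // ¬ G4P S M F} := fun n =>
    Nat.rec ⟨F, hF⟩ (fun _ s => ⟨insert (kk s) s.1, hk2 s⟩) n
  have hst : ∀ n, (st (n + 1)).1 = insert (kk (st n)) (st n).1 := fun n => rfl
  obtain ⟨f, hf⟩ : ∃ f : ℕ → ℕ, f = fun n => kk (st n) := ⟨_, rfl⟩
  have hfm : StrictMono f := by
    refine strictMono_nat_of_lt_succ fun n => ?_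
    rw [hf]
    refine hk1 (st (n + 1)) (kk (st n)) ?_
    rw [hst]
    exact Finset.mem_insert_self _ _
  obtain ⟨n, hn⟩ := S.wf f hfm
  apply hn
  have hfam : (st n).1 ∈ S.fam := by
    by_contra hcon
    apply (st n).2
    intro D hM hnull ε hε L
    refine ⟨D L, subset_convexHull ℝ _ ⟨L, Set.mem_Ici.2 le_rfl, rfl⟩, ?_⟩
    intro G _ hFG
    exact absurd (S.her _ hFG _ Finset.subset_union_left) hcon
  refine S.her _ hfam _ ?_
  intro i hi
  obtain ⟨j, hj, rfl⟩ := Finset.mem_image.1 hi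
  have hjn := Finset.mem_range.1 hj
  have hmono : ∀ a c, a ≤ c → (st a).1 ⊆ (st c).1 := by
    intro a c hac
    induction c, hac using Nat.le_induction with
    | base => exact Finset.Subset.rfl
    | succ c _ ih => exact ih.trans (by rw [hst]; exact Finset.subset_insert _ _)
  apply hmono (j + 1) n hjn
  rw [hst, hf]
  exact Finset.mem_insert_self _ _

theorem G4_convex (S : GCoord X) (D : ℕ → X) (M : ℝ) (hM : ∀ j, ‖D j‖ ≤ M)
    (hnull : ∀ p, Tendsto (fun k => S.co p (D k)) atTop (𝓝 0)) (ε : ℝ) (hε : 0 < ε) (L : ℕ) :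
    ∃ θ : ℕ →₀ ℝ, (∀ j, 0 ≤ θ j) ∧ (∀ j < L, θ j = 0) ∧ (θ.sum fun _ r => r) = 1 ∧
      ‖θ.sum fun j r => r • D j‖ ≤ ε := by
  classical
  have hM0 : 0 ≤ M := (norm_nonneg _).trans (hM 0)
  obtain ⟨x, hx, hxs⟩ := G4_all S M hM0 ∅ D hM hnull (ε / 2) (by positivity) L
  have hxn : ‖x‖ ≤ ε := by
    obtain ⟨F, hF, hle⟩ := S.ge x (ε / 2) (by positivity)
    have h1 := hxs F (by simp) (by simpa using hF)
    linarith
  have hsub : G4tl D L ⊆ {x | ∃ θ : ℕ →₀ ℝ, (∀ j, 0 ≤ θ j) ∧ (∀ j < L, θ j = 0) ∧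
      Finsupp.linearCombination ℝ (fun _ : ℕ => (1 : ℝ)) θ = 1 ∧
      Finsupp.linearCombination ℝ D θ = x} := by
    refine convexHull_min ?_ ?_
    · rintro _ ⟨j, hj, rfl⟩
      refine ⟨Finsupp.single j 1, ?_, ?_, by simp, by simp⟩
      · intro i
        rw [Finsupp.single_apply]
        split_ifs <;> norm_num
      · intro i hi
        rw [Finsupp.single_apply, if_neg]
        have := Set.mem_Ici.1 hj
        omega
    · rintro x ⟨θ, h1, h2, h3, h4⟩ y ⟨θ', h1', h2', h3', h4'⟩ a b ha hb hab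
      refine ⟨a • θ + b • θ', ?_, ?_, ?_, ?_⟩
      · intro j
        simp only [Finsupp.coe_add, Finsupp.coe_smul, Pi.add_apply, Pi.smul_apply, smul_eq_mul]
        have := h1 j
        have := h1' j
        positivity
      · intro j hj
        simp [h2 j hj, h2' j hj]
      · rw [map_add, map_smul, map_smul, h3, h3', smul_eq_mul, smul_eq_mul, mul_one, mul_one, hab]
      · rw [map_add, map_smul, map_smul, h4, h4']
  obtain ⟨θ, h1, h2, h3, h4⟩ := hsub hx
  refine ⟨θ, h1, h2, ?_, ?_⟩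
  · rw [Finsupp.linearCombination_apply] at h3
    simpa using h3
  · rw [Finsupp.linearCombination_apply] at h4
    rw [h4]
    exact hxn

end

end Pool.Agent.H182R2.CG
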