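import Pool.Agent.H182R2.CG.GDefs
import Pool.Agent.H182R2.CM.G4_convex

namespace Pool.Agent.H182R2.CG

open Finset Filter Topology

theorem G5_comb {X : Type*} [NormedAddCommGroup X] [NormedSpace ℝ X]
    (S : GCoord X) (D : ℕ → X) (M : ℝ) (hM : ∀ j, ‖D j‖ ≤ M)
    (hnull : ∀ p, Tendsto (fun k => S.co p (D k)) atTop (𝓝 0)) (R L : ℕ) :
    ∃ θ : ℕ →₀ ℝ, (∀ j, 0 ≤ θ j) ∧ (∀ j < L, θ j = 0) ∧ (θ.sum fun _ r => r) = R ∧
      ‖θ.sum fun j r => r • D j‖ ≤ M + 1 := by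
  have hM0 : 0 ≤ M := (norm_nonneg _).trans (hM 0)
  obtain ⟨θ, h1, h2, h3, h4⟩ := G4_convex S D M hM hnull (1 / ((R : ℝ) + 1)) (by positivity) L
  have e1 : ∀ ψ : ℕ →₀ ℝ, (ψ.sum fun _ r => r) =
      Finsupp.linearCombination ℝ (fun _ : ℕ => (1 : ℝ)) ψ := by
    intro ψ
    rw [Finsupp.linearCombination_apply]
    simp
  have e2 : ∀ ψ : ℕ →₀ ℝ, (ψ.sum fun j r => r • D j) = Finsupp.linearCombination ℝ D ψ := by
    intro ψ
    rw [Finsupp.linearCombination_apply]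
  refine ⟨(R : ℝ) • θ, ?_, ?_, ?_, ?_⟩
  · intro j
    rw [Finsupp.smul_apply, smul_eq_mul]
    exact mul_nonneg (Nat.cast_nonneg R) (h1 j)
  · intro j hj
    rw [Finsupp.smul_apply, h2 j hj, smul_zero]
  · rw [e1] at h3 ⊢
    rw [map_smul, h3, smul_eq_mul, mul_one]
  · rw [e2] at h4 ⊢
    rw [map_smul, norm_smul, Real.norm_of_nonneg (Nat.cast_nonneg R)]
    have hR : (0 : ℝ) < (R : ℝ) + 1 := by positivity
    calc (R : ℝ) * ‖Finsupp.linearCombination ℝ D θ‖ ≤ (R : ℝ) * (1 / ((R : ℝ) + 1)) :=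
          mul_le_mul_of_nonneg_left h4 (Nat.cast_nonneg R)
      _ ≤ 1 := by
          rw [mul_one_div, div_le_one hR]
          linarith
      _ ≤ M + 1 := by linarith

end Pool.Agent.H182R2.CG
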