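import Pool.Agent.H182R2.CG.GDefs
import Pool.Agent.H182R2.CM.G5_comb

/-! G8_weak: coordinatewise null bounded sequences are weakly null (helper20). -/

namespace Pool.Agent.H182R2.CG

open Finset Filter Topology

variable {X : Type*} [NormedAddCommGroup X] [NormedSpace ℝ X]

theorem G8_key (S : GCoord X) (D : ℕ → X) (M : ℝ) (hM : ∀ j, ‖D j‖ ≤ M)
    (hnull : ∀ p, Tendsto (fun k => S.co p (D k)) atTop (𝓝 0)) (f : X →L[ℝ] ℝ)
    (c : ℝ) (hc : 0 < c) (hf : ∃ᶠ k in atTop, c ≤ f (D k)) : False := by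
  obtain ⟨ψ, hψ, hψc⟩ := extraction_of_frequently_atTop hf
  obtain ⟨R, hR⟩ := exists_nat_gt (‖f‖ * (M + 1) / c)
  obtain ⟨θ, h0, -, hsum, hnorm⟩ := G5_comb S (fun j => D (ψ j)) M
    (fun j => hM _) (fun p => (hnull p).comp hψ.tendsto_atTop) R 0
  have h1 : (R : ℝ) * c ≤ f (θ.sum fun j r => r • D (ψ j)) := by
    rw [← hsum]
    unfold Finsupp.sum
    rw [map_sum, Finset.sum_mul]
    apply Finset.sum_le_sum
    intro j _
    rw [map_smul, smul_eq_mul]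
    exact mul_le_mul_of_nonneg_left (hψc j) (h0 j)
  have h2 : f (θ.sum fun j r => r • D (ψ j)) ≤ ‖f‖ * (M + 1) := by
    calc f (θ.sum fun j r => r • D (ψ j)) ≤ ‖f (θ.sum fun j r => r • D (ψ j))‖ :=
          Real.le_norm_self _
      _ ≤ ‖f‖ * ‖θ.sum fun j r => r • D (ψ j)‖ := f.le_opNorm _
      _ ≤ ‖f‖ * (M + 1) := mul_le_mul_of_nonneg_left hnorm (norm_nonneg _)
  rw [div_lt_iff₀ hc] at hR
  linarith

theorem G8_weak (S : GCoord X) (D : ℕ → X) (M : ℝ) (hM : ∀ j, ‖D j‖ ≤ M)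
    (hnull : ∀ p, Tendsto (fun k => S.co p (D k)) atTop (𝓝 0)) (f : X →L[ℝ] ℝ) :
    Tendsto (fun k => f (D k)) atTop (𝓝 0) := by
  by_contra hcon
  rw [Metric.tendsto_atTop] at hcon
  push Not at hcon
  obtain ⟨c, hc, hfreq⟩ := hcon
  have h1 : ∃ᶠ k in atTop, c ≤ f (D k) ∨ c ≤ (-f) (D k) := by
    rw [frequently_atTop]
    intro N
    obtain ⟨n, hn, hn'⟩ := hfreq N
    refine ⟨n, hn, ?_⟩
    rw [Real.dist_eq, sub_zero] at hn'
    rcases le_abs.1 hn' with h | h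
    · exact Or.inl h
    · exact Or.inr h
  rcases frequently_or_distrib.1 h1 with h | h
  · exact G8_key S D M hM hnull f c hc h
  · exact G8_key S D M hM hnull (-f) c hc h

end Pool.Agent.H182R2.CG
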