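import Pool.Agent.H182R2.CG.GDefs
import Pool.Agent.H182R2.CB.R1_sym
import Pool.Agent.H182R2.CM.G3_spread
import Pool.Agent.H182R2.CM.G6_subseq
import Pool.Agent.H182R2.CM.G7_no_l1

/-!
Task GR2_claimA: sup-norm oscillation of the translates of a vector along a subsequence.
-/

namespace Pool.Agent.H182R2.CG

open Finset Filter Topology Pool.Agent.H182R2.CB

theorem GR2_claimA_sum_pair {M : Type*} [AddCommMonoid M] (F : ℕ → M) (m : ℕ) :
    ∑ i ∈ range (2 * m), F i = ∑ j ∈ range m, (F (2 * j) + F (2 * j + 1)) := by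
  induction m with
  | zero => simp
  | succ m ih =>
    rw [show 2 * (m + 1) = 2 * m + 1 + 1 by ring, Finset.sum_range_succ, Finset.sum_range_succ,
      Finset.sum_range_succ, ih, add_assoc]

theorem GR2_claimA {X : Type*} [NormedAddCommGroup X] [NormedSpace ℝ X] (S : GCoord X) (R : BRep X)
    (x : X) (B s : Finset ℕ) (hBs : B ⊆ s) (ε : ℝ)
    (hε : 0 < ε) (hs : ∀ g : Equiv.Perm ℕ, (∀ i ∈ s, g i = i) → ‖R.ρ g x - x‖ ≤ ε)
    (h : ℕ → Equiv.Perm ℕ) (hB : ∀ j, ∀ i ∈ B, h j i = i)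
    (hd : ∀ i j, i ≠ j → ∀ a ∈ s \ B, ∀ b ∈ s \ B, h i a ≠ h j b) :
    ∃ φ : ℕ → ℕ, StrictMono φ ∧
      ∀ b : ℕ, ∃ K₀ : ℕ, ∀ k l, K₀ ≤ k → K₀ ≤ l →
        S.Flat b (12 * R.K * ε) (R.ρ (h (φ k)) x - R.ρ (h (φ l)) x) := by
  have hK : 1 ≤ R.K := R.hK
  have hKp : 0 < R.K := lt_of_lt_of_le one_pos hK
  have hwb : ∀ j, ‖R.ρ (h j) x‖ ≤ R.K * ‖x‖ := fun j => R.bound _ _
  obtain ⟨φ0, hφ0, hlim⟩ := G6_subseq S (fun j => R.ρ (h j) x) (R.K * ‖x‖) hwb
  refine ⟨φ0, hφ0, ?_⟩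
  by_contra hcon
  push Not at hcon
  obtain ⟨b, hcon⟩ := hcon
  have hbad : ∀ L : ℕ, ∃ kl : ℕ × ℕ, L ≤ kl.1 ∧ L ≤ kl.2 ∧
      ¬ S.Flat b (12 * R.K * ε) (R.ρ (h (φ0 kl.1)) x - R.ρ (h (φ0 kl.2)) x) := by
    intro L
    obtain ⟨k, l, hk, hl, hkl⟩ := hcon L
    exact ⟨(k, l), hk, hl, hkl⟩
  choose kl hkl1 hkl2 hpp using hbad
  -- the starting points
  let LL : ℕ → ℕ := fun n => Nat.rec 0 (fun _ L => max (kl L).1 (kl L).2 + 1) n
  have hLLs : ∀ n, LL (n + 1) = max (kl (LL n)).1 (kl (LL n)).2 + 1 := fun n => rfl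
  have hk1 : ∀ n, (kl (LL n)).1 < LL (n + 1) := by
    intro n
    rw [hLLs]
    have := le_max_left (kl (LL n)).1 (kl (LL n)).2
    omega
  have hk2 : ∀ n, (kl (LL n)).2 < LL (n + 1) := by
    intro n
    rw [hLLs]
    have := le_max_right (kl (LL n)).1 (kl (LL n)).2
    omega
  have hLLmono : StrictMono LL := strictMono_nat_of_lt_succ fun n =>
    lt_of_le_of_lt (hkl1 (LL n)) (hk1 n)
  have hLLn : ∀ n, n ≤ LL n := fun n => hLLmono.le_apply
  let ka : ℕ → ℕ := fun n => (kl (LL n)).1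
  let la : ℕ → ℕ := fun n => (kl (LL n)).2
  have hka : ∀ n, n ≤ ka n := fun n => (hLLn n).trans (hkl1 (LL n))
  have hla : ∀ n, n ≤ la n := fun n => (hLLn n).trans (hkl2 (LL n))
  have hne : ∀ n, ka n ≠ la n := by
    intro n heq
    have h1 := hpp (LL n)
    have h2 : (kl (LL n)).1 = (kl (LL n)).2 := heq
    apply h1
    rw [h2, sub_self]
    intro F _ _
    simp only [map_zero, abs_zero, Finset.sum_const_zero]
    positivity
  have hcross : ∀ n n', n < n' → ka n < ka n' ∧ ka n < la n' ∧ la n < ka n' ∧ la n < la n' := by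
    intro n n' hnn
    have h1 : LL (n + 1) ≤ LL n' := hLLmono.monotone hnn
    have h2 := hk1 n
    have h3 := hk2 n
    have h4 := hkl1 (LL n')
    have h5 := hkl2 (LL n')
    change (kl (LL n)).1 < (kl (LL n')).1 ∧ (kl (LL n)).1 < (kl (LL n')).2 ∧
      (kl (LL n)).2 < (kl (LL n')).1 ∧ (kl (LL n)).2 < (kl (LL n')).2
    omega
  have hnull : ∀ p, Tendsto (fun n => S.co p (R.ρ (h (φ0 (ka n))) x - R.ρ (h (φ0 (la n))) x))
      atTop (𝓝 0) := by
    intro p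
    obtain ⟨l, hl⟩ := hlim p
    have h1 : Tendsto ka atTop atTop := tendsto_atTop_mono hka tendsto_id
    have h2 : Tendsto la atTop atTop := tendsto_atTop_mono hla tendsto_id
    have h3 := (hl.comp h1).sub (hl.comp h2)
    rw [sub_self] at h3
    refine h3.congr fun n => ?_
    simp only [Function.comp_apply, map_sub]
  have hc : 0 < 12 * R.K * ε := by positivity
  refine G7_no_l1 S (fun j => R.ρ (h (2 * j)) x - R.ρ (h (2 * j + 1)) x) (2 * (R.K * ‖x‖))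
    (fun j => ?_) ε hε ?_
  · refine (norm_sub_le _ _).trans ?_
    have h1 := hwb (2 * j)
    have h2 := hwb (2 * j + 1)
    linarith
  intro θ m
  obtain ⟨nn, hnn, _, hnl⟩ := G3_spread S _ hnull (12 * R.K * ε) hc b
    (fun K => ⟨K, le_refl K, hpp (LL K)⟩) m 0
  have h1 := hnl θ
  -- the permutations
  let q : ℕ → ℕ := fun i => φ0 (if i % 2 = 0 then ka (nn (i / 2)) else la (nn (i / 2)))
  let θ' : ℕ → ℝ := fun i => if i % 2 = 0 then θ (i / 2) else - θ (i / 2)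
  have hq0 : ∀ j, q (2 * j) = φ0 (ka (nn j)) := by
    intro j
    have e1 : 2 * j % 2 = 0 := by omega
    have e2 : 2 * j / 2 = j := by omega
    simp only [q, e1, e2, if_true]
  have hq1 : ∀ j, q (2 * j + 1) = φ0 (la (nn j)) := by
    intro j
    have e1 : ¬ (2 * j + 1) % 2 = 0 := by omega
    have e2 : (2 * j + 1) / 2 = j := by omega
    simp only [q, e1, e2, if_false]
  have ht0 : ∀ j, θ' (2 * j) = θ j := by
    intro j
    have e1 : 2 * j % 2 = 0 := by omega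
    have e2 : 2 * j / 2 = j := by omega
    simp only [θ', e1, e2, if_true]
  have ht1 : ∀ j, θ' (2 * j + 1) = - θ j := by
    intro j
    have e1 : ¬ (2 * j + 1) % 2 = 0 := by omega
    have e2 : (2 * j + 1) / 2 = j := by omega
    simp only [θ', e1, e2, if_false]
  have hqinj : ∀ i j, i ≠ j → q i ≠ q j := by
    intro i j hij heq
    have h2 := hφ0.injective heq
    have hlt : ∀ i j, i / 2 < j / 2 →
        (if i % 2 = 0 then ka (nn (i / 2)) else la (nn (i / 2))) ≠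
          (if j % 2 = 0 then ka (nn (j / 2)) else la (nn (j / 2))) := by
      intro i j hij
      obtain ⟨c1, c2, c3, c4⟩ := hcross _ _ (hnn hij)
      split_ifs <;> omega
    rcases lt_trichotomy (i / 2) (j / 2) with h3 | h3 | h3
    · exact hlt i j h3 h2
    · rw [h3] at h2
      have h4 := hne (nn (j / 2))
      split_ifs at h2 with h5 h6 h6
      · omega
      · exact h4 h2
      · exact h4 h2.symm
      · omega
    · exact hlt j i h3 h2.symm
  have h2 := R1_sym R x B s hBs ε hs (2 * m) h (fun i => h (q i)) (fun j _ => hB j)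
    (fun j _ => hB (q j)) (fun i _ j _ hij => hd i j hij)
    (fun i _ j _ hij => hd (q i) (q j) (hqinj i j hij)) θ'
  rw [GR2_claimA_sum_pair, GR2_claimA_sum_pair, GR2_claimA_sum_pair] at h2
  have e1 : ∑ j ∈ range m, (θ' (2 * j) • R.ρ (h (q (2 * j))) x +
      θ' (2 * j + 1) • R.ρ (h (q (2 * j + 1))) x) =
      ∑ j ∈ range m, θ j • (R.ρ (h (φ0 (ka (nn j)))) x - R.ρ (h (φ0 (la (nn j)))) x) := by
    refine Finset.sum_congr rfl fun j _ => ?_
    rw [hq0, hq1, ht0, ht1, smul_sub, neg_smul, sub_eq_add_neg]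
  have e2 : ∑ j ∈ range m, (θ' (2 * j) • R.ρ (h (2 * j)) x +
      θ' (2 * j + 1) • R.ρ (h (2 * j + 1)) x) =
      ∑ j ∈ range m, θ j • (R.ρ (h (2 * j)) x - R.ρ (h (2 * j + 1)) x) := by
    refine Finset.sum_congr rfl fun j _ => ?_
    rw [ht0, ht1, smul_sub, neg_smul, sub_eq_add_neg]
  have e3 : ∑ j ∈ range m, (|θ' (2 * j)| + |θ' (2 * j + 1)|) = 2 * ∑ j ∈ range m, |θ j| := by
    rw [Finset.mul_sum]
    refine Finset.sum_congr rfl fun j _ => ?_
    rw [ht0, ht1, abs_neg, two_mul]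
  rw [e3] at h2
  have h3 : ‖∑ j ∈ range m, θ j • (R.ρ (h (φ0 (ka (nn j)))) x - R.ρ (h (φ0 (la (nn j)))) x)‖ ≤
      R.K * ‖∑ j ∈ range m, θ j • (R.ρ (h (2 * j)) x - R.ρ (h (2 * j + 1)) x)‖ +
        R.K * ε * (2 * ∑ j ∈ range m, |θ j|) := by
    rw [← e1, ← e2]
    exact h2
  have h4 : 12 * R.K * ε / 4 * ∑ j ∈ range m, |θ j| ≤
      R.K * ‖∑ j ∈ range m, θ j • (R.ρ (h (2 * j)) x - R.ρ (h (2 * j + 1)) x)‖ +
        R.K * ε * (2 * ∑ j ∈ range m, |θ j|) := h1.trans h3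
  refine le_of_mul_le_mul_left ?_ hKp
  linarith

end Pool.Agent.H182R2.CG
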