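import Pool.Agent.H182R2.CG.GDefs
import Pool.Agent.H182R2.CM.GR4_claimB
import Pool.Agent.H182R2.CB.E2_family

set_option autoImplicit false

/-! Task GR5_avg (helper605): two averages are close. -/

namespace Pool.Agent.H182R2.CG

open Finset Filter Topology Pool.Agent.H182R2.CB

variable {X : Type*} [NormedAddCommGroup X] [NormedSpace ℝ X]

/-- comparison of an average with a double average -/
theorem GR5_avg_half (S : GCoord X) (R : BRep X) (x : X) (B s : Finset ℕ) (hBs : B ⊆ s) (ε : ℝ)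
    (hε : 0 < ε) (hs : ∀ g : Equiv.Perm ℕ, (∀ i ∈ s, g i = i) → ‖R.ρ g x - x‖ ≤ ε) (N N' : ℕ)
    (hN : 0 < N) (hN' : 0 < N')
    (k : ℕ → Equiv.Perm ℕ) (Q : ℕ → ℕ → Equiv.Perm ℕ) (hB : ∀ j < N, ∀ i ∈ B, k j i = i)
    (hB' : ∀ g < N', ∀ j < N, ∀ i ∈ B, Q g j i = i)
    (hd : ∀ i < N, ∀ j < N, i ≠ j → ∀ a ∈ s \ B, ∀ b ∈ s \ B, k i a ≠ k j b)
    (hd' : ∀ g < N', ∀ i < N, ∀ j < N, i ≠ j → ∀ a ∈ s \ B, ∀ b ∈ s \ B, Q g i a ≠ Q g j b)
    (hdd : ∀ g < N', ∀ i < N, ∀ j < N, ∀ a ∈ s \ B, ∀ b ∈ s \ B, k i a ≠ Q g j b) :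
    ‖(1 / N : ℝ) • ∑ j ∈ range N, R.ρ (k j) x -
      (1 / ((N : ℝ) * N')) • ∑ g ∈ range N', ∑ j ∈ range N, R.ρ (Q g j) x‖ ≤
      R.K * (2 * R.K * ‖x‖ + 1) / N + 2 * R.K * ε := by
  have hN0 : (0 : ℝ) < N := by exact_mod_cast hN
  have hN0' : (0 : ℝ) < N' := by exact_mod_cast hN'
  have h1 : (1 / N : ℝ) • ∑ j ∈ range N, R.ρ (k j) x -
      (1 / ((N : ℝ) * N')) • ∑ g ∈ range N', ∑ j ∈ range N, R.ρ (Q g j) x =
      (1 / ((N : ℝ) * N')) • ∑ g ∈ range N', ∑ j ∈ range N,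
        (R.ρ (k j) x - R.ρ (Q g j) x) := by
    simp only [Finset.sum_sub_distrib]
    rw [smul_sub, Finset.sum_const, Finset.card_range, ← Nat.cast_smul_eq_nsmul ℝ, smul_smul]
    congr 2
    field_simp
  rw [h1, norm_smul, Real.norm_of_nonneg (by positivity)]
  have h2 : ‖∑ g ∈ range N', ∑ j ∈ range N, (R.ρ (k j) x - R.ρ (Q g j) x)‖ ≤
      N' * (R.K * (2 * R.K * ‖x‖ + 1) + 2 * N * R.K * ε) := by
    have h3 : ∀ g ∈ range N', ‖∑ j ∈ range N, (R.ρ (k j) x - R.ρ (Q g j) x)‖ ≤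
        R.K * (2 * R.K * ‖x‖ + 1) + 2 * N * R.K * ε := by
      intro g hg
      have hg' := Finset.mem_range.1 hg
      exact GR4_claimB S R x B s hBs ε hε hs N k (Q g) hB (hB' g hg') hd (hd' g hg') (hdd g hg')
    refine (norm_sum_le _ _).trans ((Finset.sum_le_sum h3).trans (le_of_eq ?_))
    rw [Finset.sum_const, Finset.card_range, nsmul_eq_mul]
  calc 1 / ((N : ℝ) * N') * ‖∑ g ∈ range N', ∑ j ∈ range N, (R.ρ (k j) x - R.ρ (Q g j) x)‖
      ≤ 1 / ((N : ℝ) * N') * (N' * (R.K * (2 * R.K * ‖x‖ + 1) + 2 * N * R.K * ε)) := by gcongr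
    _ = R.K * (2 * R.K * ‖x‖ + 1) / N + 2 * R.K * ε := by
        field_simp

theorem GR5_avg (S : GCoord X) (R : BRep X) (x : X) (B : Finset ℕ) (N N' : ℕ) (hN : 0 < N)
    (hN' : 0 < N') (ε ε' : ℝ) (hε : 0 < ε) (hε' : 0 < ε') (A A' : X)
    (hA : IsAvg R x B N ε A) (hA' : IsAvg R x B N' ε' A') :
    ‖A - A'‖ ≤ (R.K * (2 * R.K * ‖x‖ + 1) / N + 2 * R.K * ε) +
      (R.K * (2 * R.K * ‖x‖ + 1) / N' + 2 * R.K * ε') := by
  obtain ⟨s, k, hBs, hs, hkB, hkd, rfl⟩ := hA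
  obtain ⟨s', k', hBs', hs', hkB', hkd', rfl⟩ := hA'
  obtain ⟨q, hqB, hqd, hqt⟩ := E2_family B (s ∪ s')
    ((range N).biUnion (fun j => s.image (k j)) ∪ (range N').biUnion (fun j => s'.image (k' j)))
  have hsub : s \ B ⊆ (s ∪ s') \ B := Finset.sdiff_subset_sdiff Finset.subset_union_left le_rfl
  have hsub' : s' \ B ⊆ (s ∪ s') \ B :=
    Finset.sdiff_subset_sdiff Finset.subset_union_right le_rfl
  have hne : ∀ g g' j j' : ℕ, (g ≠ g' ∨ j ≠ j') → Nat.pair g j ≠ Nat.pair g' j' := by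
    intro g g' j j' h h'
    rw [Nat.pair_eq_pair] at h'
    rcases h with h | h
    · exact h h'.1
    · exact h h'.2
  have e1 := GR5_avg_half S R x B s hBs ε hε hs N N' hN hN' k (fun g j => q (Nat.pair g j)) hkB
    (fun g _ j _ => hqB _) hkd
    (fun g _ i _ j _ hij a ha b hb => hqd _ _ (hne g g i j (Or.inr hij)) a (hsub ha) b (hsub hb))
    (fun g _ i hi j _ a ha b hb h => by
      apply hqt (Nat.pair g j) b (hsub hb)
      rw [← h]
      refine Finset.mem_union_left _ (Finset.mem_biUnion.2 ⟨i, Finset.mem_range.2 hi, ?_⟩)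
      exact Finset.mem_image_of_mem _ (Finset.sdiff_subset ha))
  have e2 := GR5_avg_half S R x B s' hBs' ε' hε' hs' N' N hN' hN k'
    (fun j g => q (Nat.pair g j)) hkB'
    (fun g _ j _ => hqB _) hkd'
    (fun j _ g _ g' _ hij a ha b hb =>
      hqd _ _ (hne g g' j j (Or.inl hij)) a (hsub' ha) b (hsub' hb))
    (fun j _ g hg g' _ a ha b hb h => by
      apply hqt (Nat.pair g' j) b (hsub' hb)
      rw [← h]
      refine Finset.mem_union_right _ (Finset.mem_biUnion.2 ⟨g, Finset.mem_range.2 hg, ?_⟩)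
      exact Finset.mem_image_of_mem _ (Finset.sdiff_subset ha))
  rw [mul_comm (N' : ℝ) N, Finset.sum_comm] at e2
  calc ‖(1 / N : ℝ) • ∑ j ∈ range N, R.ρ (k j) x - (1 / N' : ℝ) • ∑ j ∈ range N', R.ρ (k' j) x‖
      = ‖((1 / N : ℝ) • ∑ j ∈ range N, R.ρ (k j) x -
          (1 / ((N : ℝ) * N')) • ∑ g ∈ range N', ∑ j ∈ range N, R.ρ (q (Nat.pair g j)) x) -
        ((1 / N' : ℝ) • ∑ j ∈ range N', R.ρ (k' j) x -
          (1 / ((N : ℝ) * N')) • ∑ g ∈ range N', ∑ j ∈ range N,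
            R.ρ (q (Nat.pair g j)) x)‖ := by
        congr 1
        abel
    _ ≤ _ := (norm_sub_le _ _).trans (add_le_add e1 e2)

end Pool.Agent.H182R2.CG
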