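import Pool.Agent.H182R2.CG.GDefs
import Pool.Agent.H182R2.CM.GR7_key
import Pool.Agent.H182R2.CM.G6_subseq
import Pool.Agent.H182R2.CM.GR9_lower
import Pool.Agent.H182R2.CM.GR10_upper
import Pool.Agent.H182R2.CB.E2_family

/-!
Task GR11_fixed (helper368): nonzero fixed vectors.
-/

namespace Pool.Agent.H182R2.CG

open Finset Filter Topology
open Pool.Agent.H182R2.CB

variable {X : Type*} [NormedAddCommGroup X] [NormedSpace ℝ X]

theorem GR11_fixed_conj (R : BRep X) (B : Finset ℕ) (h : Equiv.Perm ℕ) (x : X)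
    (hx : ∀ g : Equiv.Perm ℕ, (∀ i ∈ B, g i = i) → R.ρ g x = x) (g : Equiv.Perm ℕ)
    (hg : ∀ i ∈ B.image h, g i = i) : R.ρ g (R.ρ h x) = R.ρ h x := by
  have h1 : R.ρ (h⁻¹ * g * h) x = x := by
    apply hx
    intro i hi
    have h2 := hg (h i) (Finset.mem_image_of_mem h hi)
    rw [Equiv.Perm.mul_apply, Equiv.Perm.mul_apply, h2]
    exact h.symm_apply_apply i
  have h3 : g * h = h * (h⁻¹ * g * h) := by group
  have h4 : R.ρ g (R.ρ h x) = R.ρ (g * h) x := by
    rw [map_mul]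
    rfl
  rw [h4, h3, map_mul]
  have h5 : (R.ρ h * R.ρ (h⁻¹ * g * h)) x = R.ρ h (R.ρ (h⁻¹ * g * h) x) := rfl
  rw [h5, h1]

/-- Every bounded continuous representation of `SYM(ℕ)` on the Schreier space has a nonzero
fixed vector. -/
theorem GR11_fixed [CompleteSpace X] (S : GCoord X) (R : BRep X) :
    ∃ y : X, y ≠ 0 ∧ ∀ g, R.ρ g y = y := by
  by_contra hcon
  have hfix : ∀ y : X, (∀ g, R.ρ g y = y) → y = 0 := by
    intro y hy
    by_contra h0
    exact hcon ⟨y, h0, hy⟩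
  obtain ⟨B, n₀, h7⟩ := GR7_key S R S.u 1 S.norm_u (1 / 8) (by norm_num)
  choose! y hy1 hy2 hy3 using h7
  have hKp : 0 < R.K := lt_of_lt_of_le one_pos R.hK
  obtain ⟨φ, hφ, hlim⟩ := G6_subseq S (fun i => y (n₀ + i)) (R.K ^ 3 * 1)
    (fun i => hy2 _ (Nat.le_add_right _ _))
  obtain ⟨D, hD⟩ : ∃ D : ℕ → X, D = fun j => y (n₀ + φ (2 * j)) - y (n₀ + φ (2 * j + 1)) :=
    ⟨_, rfl⟩
  have hDM : ∀ j, ‖D j‖ ≤ 2 * R.K ^ 3 := by
    intro j
    rw [hD]
    have h1 := hy2 (n₀ + φ (2 * j)) (Nat.le_add_right _ _)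
    have h2 := hy2 (n₀ + φ (2 * j + 1)) (Nat.le_add_right _ _)
    have h3 := norm_sub_le (y (n₀ + φ (2 * j))) (y (n₀ + φ (2 * j + 1)))
    simp only
    linarith
  have hDB : ∀ j, ∀ g : Equiv.Perm ℕ, (∀ i ∈ B, g i = i) → R.ρ g (D j) = D j := by
    intro j g hg
    rw [hD]
    simp only
    rw [map_sub, hy1 _ (Nat.le_add_right _ _) g hg, hy1 _ (Nat.le_add_right _ _) g hg]
  have hnull : ∀ p, Tendsto (fun k => S.co p (D k)) atTop (𝓝 0) := by
    intro p
    obtain ⟨l, hl⟩ := hlim p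
    have t1 : Tendsto (fun j : ℕ => 2 * j) atTop atTop :=
      tendsto_atTop_mono (fun j => by simp only [id]; omega) tendsto_id
    have t2 : Tendsto (fun j : ℕ => 2 * j + 1) atTop atTop :=
      tendsto_atTop_mono (fun j => by simp only [id]; omega) tendsto_id
    have h1 := (hl.comp t1).sub (hl.comp t2)
    rw [sub_self] at h1
    refine h1.congr fun j => ?_
    rw [hD]
    simp only [Function.comp_apply, map_sub]
  have hbig : ∀ j, ∃ p, 1 / 2 ≤ |S.co p (D j)| := by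
    intro j
    refine ⟨n₀ + φ (2 * j), ?_⟩
    have hne : n₀ + φ (2 * j) ≠ n₀ + φ (2 * j + 1) := by
      have := hφ (show 2 * j < 2 * j + 1 by omega)
      omega
    have h1 := hy3 (n₀ + φ (2 * j)) (Nat.le_add_right _ _) (n₀ + φ (2 * j))
    have h2 := hy3 (n₀ + φ (2 * j + 1)) (Nat.le_add_right _ _) (n₀ + φ (2 * j))
    rw [map_sub, S.co_u, if_pos rfl, abs_le] at h1
    rw [map_sub, S.co_u, if_neg hne, abs_le] at h2
    rw [hD]
    simp only
    rw [map_sub]
    refine le_trans ?_ (le_abs_self _)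
    linarith [h1.1, h1.2, h2.1, h2.2]
  obtain ⟨h, -, hd, -⟩ := E2_family ∅ B ∅
  obtain ⟨m, hm⟩ := exists_nat_gt (16 * R.K * (R.K * (R.K * (R.K * (2 * R.K ^ 3)) + 1)))
  obtain ⟨j, hj⟩ := GR9_lower S R D (2 * R.K ^ 3) hDM hnull hbig m h
  have hup := GR10_upper S R hfix m (fun l => R.ρ (h l) (D (j l))) (fun l => B.image (h l))
    (R.K * (2 * R.K ^ 3)) (by positivity)
    (fun l _ => (R.bound _ _).trans (mul_le_mul_of_nonneg_left (hDM _) hKp.le))
    (fun l _ g hg => GR11_fixed_conj R B (h l) (D (j l)) (hDB (j l)) g hg)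
    (by
      intro l _ l' _ hll
      rw [Finset.disjoint_left]
      intro x hx hx'
      obtain ⟨a, ha, rfl⟩ := Finset.mem_image.1 hx
      obtain ⟨b, hb, hab⟩ := Finset.mem_image.1 hx'
      exact hd l l' hll a (by simpa using ha) b (by simpa using hb) hab.symm)
  have h1 := hj.trans hup
  rw [mul_one_div, div_le_iff₀ (by positivity)] at h1
  linarith

end Pool.Agent.H182R2.CG
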