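import Pool.Agent.H182R2.CM.GS2_coord
import Pool.Agent.H182R2.CM.GR11_fixed
import Pool.Agent.H182R2.CB.F4

namespace Pool.Agent.H182R2.CG

open Pool.Agent.H182R2.CB

/-- A group all of whose nontrivial central involutions are images of the sign change under
homomorphisms from the group of signed permutations is not displayable on the space of a
multiplicative regular family. -/
theorem GF4_gen {𝓕 : Set (Finset ℕ)} (hreg : IsRegularFamily 𝓕)
    (hs : ∀ n, ({n} : Finset ℕ) ∈ 𝓕) (hm : IsMult 𝓕) {X : Type*} [NormedAddCommGroup X]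
    [NormedSpace ℝ X] [CompleteSpace X] {e : ℕ → X} (hX : IsCombinatorialSpace 𝓕 X e)
    {Γ : Type*} [Group Γ]
    (hκ : ∀ c : Γ, (∀ g, c * g = g * c) → c * c = 1 → c ≠ 1 →
      ∃ κ : signedPerm →* Γ, κ ⟨nuPerm, nuPerm_mem⟩ = c) :
    ¬ Displayable X Γ := by
  rintro ⟨N, ⟨m, M, hm0, hN⟩, ⟨f⟩⟩
  obtain ⟨S⟩ := GS2_coord hreg hs hm hX
  have hsep : TopologicalSpace.SeparableSpace X := S3_separable hX
  obtain ⟨ι, τ, h1, h2, h3, -⟩ := F2_struct
  -- minus the identity
  have hnegN : ∀ x, N ((LinearEquiv.neg ℝ : X ≃ₗ[ℝ] X) x) = N x := by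
    intro x
    simp
  set c : Γ := f.symm ⟨LinearEquiv.neg ℝ, hnegN⟩ with hc
  have hfc : f c = ⟨LinearEquiv.neg ℝ, hnegN⟩ := by rw [hc, MulEquiv.apply_symm_apply]
  have hcc : ∀ g, c * g = g * c := by
    intro g
    apply f.injective
    rw [map_mul, map_mul, hfc]
    apply Subtype.ext
    apply LinearEquiv.ext
    intro x
    show -((f g : X ≃ₗ[ℝ] X) x) = (f g : X ≃ₗ[ℝ] X) (-x)
    rw [map_neg]
  have hc2 : c * c = 1 := by
    apply f.injective
    rw [map_mul, hfc, map_one]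
    apply Subtype.ext
    apply LinearEquiv.ext
    intro x
    show -(-x) = x
    rw [neg_neg]
  have hne0 : S.u 0 ≠ 0 := by
    intro h0
    have := S.co_u 0 0
    rw [h0, map_zero] at this
    simp at this
  have hc1 : c ≠ 1 := by
    intro h
    rw [h, map_one] at hfc
    have h5 : (1 : X ≃ₗ[ℝ] X) = LinearEquiv.neg ℝ := congrArg Subtype.val hfc
    have h6 : S.u 0 = -S.u 0 := by
      have := congrArg (fun T : X ≃ₗ[ℝ] X => T (S.u 0)) h5
      simpa using this
    have h7 : (2 : ℝ) • S.u 0 = 0 := by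
      rw [two_smul]
      nth_rewrite 1 [h6]
      simp
    rcases smul_eq_zero.mp h7 with h8 | h8
    · norm_num at h8
    · exact hne0 h8
  have hτ : τ Set.univ = ⟨nuPerm, nuPerm_mem⟩ := Subtype.ext h3
  obtain ⟨κ, hκc⟩ := hκ c hcc hc2 hc1
  have hcτ : c = κ (τ Set.univ) := by rw [hτ]; exact hκc.symm
  -- the representation
  set ρ : Γ →* (X ≃ₗ[ℝ] X) := (isomGroup X N).subtype.comp f.toMonoidHom with hρ
  have hρN : ∀ g x, N (ρ g x) = N x := fun g x => (f g).2 x
  have hM0 : 0 < M := by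
    have h5 := hN (S.u 0)
    have h6 : 0 < ‖S.u 0‖ := norm_pos_iff.mpr hne0
    by_contra hneg
    push Not at hneg
    have h7 : M * ‖S.u 0‖ ≤ 0 := mul_nonpos_of_nonpos_of_nonneg hneg h6.le
    have h8 : 0 < m * ‖S.u 0‖ := by positivity
    linarith [h5.1, h5.2]
  set K : ℝ := max 1 (M / m) with hK
  have hK1 : 1 ≤ K := le_max_left _ _
  have hb : ∀ g x, ‖ρ g x‖ ≤ K * ‖x‖ := by
    intro g x
    have h5 := (hN (ρ g x)).1
    rw [hρN] at h5
    have h6 := (hN x).2
    have h7 : ‖ρ g x‖ ≤ M / m * ‖x‖ := by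
      rw [div_mul_eq_mul_div, le_div_iff₀ hm0]
      linarith
    exact h7.trans (mul_le_mul_of_nonneg_right (le_max_right _ _) (norm_nonneg _))
  let R : BRep X :=
    { ρ := ρ.comp (κ.comp ι)
      K := K
      hK := hK1
      bound := fun g x => hb (κ (ι g)) x
      cont := fun x ε hε =>
        AC7_rep (ρ.comp (κ.comp ι)) K hK1 (fun g x => hb (κ (ι g)) x) x ε hε }
  obtain ⟨y, hy0, hy⟩ := GR11_fixed S R
  apply hy0
  refine F3_flip (κ.comp ι) (fun A => κ (τ A)) ?_ ?_ ρ K hK1 hb y (fun π => hy π) ?_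
  · intro π A
    show κ (ι π) * κ (τ A) * (κ (ι π))⁻¹ = κ (τ (π '' A))
    rw [← map_mul, ← map_inv, ← map_mul, h1]
  · intro A B
    show κ (τ A) * κ (τ B) = κ (τ (symmDiff A B))
    rw [← map_mul, h2]
  · show ρ (κ (τ Set.univ)) y = -y
    rw [← hcτ]
    show (f c : X ≃ₗ[ℝ] X) y = -y
    rw [hfc]
    rfl


end Pool.Agent.H182R2.CG
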