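import Pool.Agent.H182R2.CG.GDefs

namespace Pool.Agent.H182R2.CG

open Finset Topology Pool.Agent.H182R2.CB

theorem GT5_open (p : ℕ) (χ : ℕ → Bool) : IsOpen {ψ : ℕ → Bool | ∀ q ≤ p, ψ q = χ q} := by
  have h1 : {ψ : ℕ → Bool | ∀ q ≤ p, ψ q = χ q} =
      ⋂ q ∈ Finset.range (p + 1), (fun ψ : ℕ → Bool => ψ q) ⁻¹' {χ q} := by
    ext ψ
    simp [Nat.lt_succ_iff]
  rw [h1]
  exact isOpen_biInter_finset fun q _ => (isOpen_discrete ({χ q} : Set Bool)).preimage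
    (continuous_apply q)

/-- closedness criterion -/
theorem GT5_closed (C : Set (ℕ → Bool)) (h0 : (fun _ => false) ∈ C) (U : ℕ → Set (ℕ → Bool))
    (hU : ∀ p, IsClosed (U p))
    (h1 : ∀ p, ∀ χ ∈ U p, χ p = true → (∀ q < p, χ q = false) → χ ∈ C)
    (h2 : ∀ p, ∀ χ ∈ C, χ p = true → (∀ q < p, χ q = false) → χ ∈ U p) : IsClosed C := by
  classical
  rw [← isOpen_compl_iff, isOpen_iff_mem_nhds]
  intro χ hχ
  have hex : ∃ p, χ p = true := by
    by_contra hcon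
    push Not at hcon
    apply hχ
    have : χ = fun _ => false := by
      funext q
      simpa using hcon q
    rw [this]
    exact h0
  have hp := Nat.find_spec hex
  have hmin : ∀ q < Nat.find hex, χ q = false := fun q hq => by
    simpa using Nat.find_min hex hq
  generalize Nat.find hex = p at hp hmin
  have hχU : χ ∉ U p := fun hc => hχ (h1 p χ hc hp hmin)
  have hopen : IsOpen ({ψ : ℕ → Bool | ∀ q ≤ p, ψ q = χ q} ∩ (U p)ᶜ) :=
    (GT5_open p χ).inter (hU p).isOpen_compl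
  refine Filter.mem_of_superset (hopen.mem_nhds ⟨fun _ _ => rfl, hχU⟩) ?_
  rintro ψ ⟨hψ, hψU⟩ hψC
  apply hψU
  refine h2 p ψ hψC ?_ ?_
  · rw [hψ p le_rfl, hp]
  · intro q hq
    rw [hψ q hq.le, hmin q hq]

theorem GT5_regular {𝓖 : ℕ → Set (Finset ℕ)} (h : ∀ n, IsRegularFamily (𝓖 n))
    (hs : ∀ n p, ({p} : Finset ℕ) ∈ 𝓖 n) :
    IsRegularFamily (limFam 𝓖) ∧ ∀ p, ({p} : Finset ℕ) ∈ limFam 𝓖 := by
  classical
  refine ⟨⟨?_, ?_, ?_⟩, fun p => ⟨0, hs 0 p, fun _ _ => Nat.zero_le _⟩⟩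
  · rintro F ⟨n, hF, hn⟩ G hG
    exact ⟨n, (h n).hereditary F hF G hG, fun p hp => hn p (hG hp)⟩
  · rintro F ⟨n, hF, hn⟩ φ hφ hφ2
    refine ⟨n, (h n).spreading F hF φ hφ hφ2, ?_⟩
    intro p hp
    obtain ⟨i, hi, rfl⟩ := Finset.mem_image.1 hp
    exact (hn i hi).trans (hφ2 i hi)
  · apply IsClosed.isCompact
    refine GT5_closed _ ?_ (fun p => ⋃ n ∈ Finset.range (p + 1),
      {χ : ℕ → Bool | ∃ F ∈ 𝓖 n, ∀ i, χ i = true ↔ i ∈ F}) ?_ ?_ ?_
    · refine ⟨∅, ⟨0, (h 0).hereditary {0} (hs 0 0) ∅ (Finset.empty_subset _), by simp⟩, by simp⟩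
    · intro p
      exact isClosed_biUnion_finset fun n _ => (h n).compact.isClosed
    · intro p χ hχ hp hmin
      simp only [Set.mem_iUnion, Finset.mem_range] at hχ
      obtain ⟨n, hn, F, hF, hχF⟩ := hχ
      refine ⟨F, ⟨n, hF, ?_⟩, hχF⟩
      intro q hq
      by_contra hcon
      have h3 := hmin q (by omega)
      rw [(hχF q).2 hq] at h3
      exact Bool.noConfusion h3
    · rintro p χ ⟨F, ⟨n, hF, hn⟩, hχF⟩ hp hmin
      simp only [Set.mem_iUnion, Finset.mem_range]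
      refine ⟨n, ?_, F, hF, hχF⟩
      have := hn p ((hχF p).1 hp)
      omega

end Pool.Agent.H182R2.CG
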