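import Pool.Agent.H182R2.CG.GDefs
import Pool.Agent.H182R2.CM.GT5_regular

namespace Pool.Agent.H182R2.CG

open Finset Topology Pool.Agent.H182R2.CB

/-- unions of exactly `m` successive members -/
theorem GT1_closed {𝓖 : Set (Finset ℕ)} (h : IsRegularFamily 𝓖) (m : ℕ) :
    IsClosed {χ : ℕ → Bool | ∃ G : ℕ → Finset ℕ, (∀ i < m, G i ∈ 𝓖) ∧
      (∀ i j, i < j → j < m → ∀ a ∈ G i, ∀ c ∈ G j, a < c) ∧
      ∀ q, χ q = true ↔ q ∈ (Finset.range m).biUnion G} := by
  classical
  set K : Set (ℕ → Bool) := {χ : ℕ → Bool | ∃ F ∈ 𝓖, ∀ i, χ i = true ↔ i ∈ F} with hK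
  have hKc : IsCompact K := h.compact
  -- the compact set of tuples
  have hprod : IsCompact (Set.pi Set.univ (fun _ : Fin m => K)) :=
    isCompact_univ_pi fun _ => hKc
  have hsucc : IsClosed {x : Fin m → ℕ → Bool | ∀ i j : Fin m, i < j → ∀ a c : ℕ, ¬ a < c →
      ¬ (x i a = true ∧ x j c = true)} := by
    simp only [Set.ofPred_forall]
    refine isClosed_iInter fun i => isClosed_iInter fun j => isClosed_iInter fun _ =>
      isClosed_iInter fun a => isClosed_iInter fun c => isClosed_iInter fun _ => ?_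
    have h1 : IsOpen {x : Fin m → ℕ → Bool | x i a = true ∧ x j c = true} := by
      have c1 : Continuous (fun x : Fin m → ℕ → Bool => x i a) :=
        (continuous_apply a).comp (continuous_apply i)
      have c2 : Continuous (fun x : Fin m → ℕ → Bool => x j c) :=
        (continuous_apply c).comp (continuous_apply j)
      exact ((isOpen_discrete ({true} : Set Bool)).preimage c1).inter
        ((isOpen_discrete ({true} : Set Bool)).preimage c2)
    exact h1.isClosed_compl
  have hcomp := hprod.inter_right hsucc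
  -- the union map
  have hcont : Continuous (fun (x : Fin m → ℕ → Bool) (q : ℕ) => decide (∃ i, x i q = true)) := by
    refine continuous_pi fun q => ?_
    have h2 : Continuous (fun x : Fin m → ℕ → Bool => fun i => x i q) :=
      continuous_pi fun i => (continuous_apply q).comp (continuous_apply i)
    have h3 : Continuous (fun y : Fin m → Bool => decide (∃ i, y i = true)) :=
      continuous_of_discreteTopology
    exact h3.comp h2
  have himg := (hcomp.image hcont).isClosed
  convert himg using 1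
  ext χ
  constructor
  · rintro ⟨G, hG, hGs, hχ⟩
    refine ⟨fun i q => decide (q ∈ G i), ⟨?_, ?_⟩, ?_⟩
    · intro i _
      exact ⟨G i, hG i i.2, fun q => by simp⟩
    · intro i j hij a c hac
      rintro ⟨ha, hc⟩
      simp only [decide_eq_true_eq] at ha hc
      exact hac (hGs i j hij j.2 a ha c hc)
    · funext q
      apply Bool.eq_iff_iff.2
      rw [hχ q]
      simp only [decide_eq_true_eq, Finset.mem_biUnion, Finset.mem_range]
      constructor
      · rintro ⟨i, hi⟩
        exact ⟨i, i.2, hi⟩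
      · rintro ⟨i, hi, hq⟩
        exact ⟨⟨i, hi⟩, hq⟩
  · rintro ⟨x, ⟨hx, hxs⟩, rfl⟩
    have hx' : ∀ i : Fin m, ∃ F ∈ 𝓖, ∀ q, x i q = true ↔ q ∈ F := fun i => hx i (Set.mem_univ i)
    choose F hF hxF using hx'
    refine ⟨fun i => if hi : i < m then F ⟨i, hi⟩ else ∅, ?_, ?_, ?_⟩
    · intro i hi
      simp only [hi, dif_pos]
      exact hF _
    · intro i j hij hj a ha c hc
      have hi := hij.trans hj
      simp only [hi, hj, dif_pos] at ha hc
      by_contra hac
      exact hxs ⟨i, hi⟩ ⟨j, hj⟩ hij a c hac ⟨(hxF _ a).2 ha, (hxF _ c).2 hc⟩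
    · intro q
      simp only [decide_eq_true_eq, Finset.mem_biUnion, Finset.mem_range]
      constructor
      · rintro ⟨i, hi⟩
        refine ⟨i, i.2, ?_⟩
        rw [dif_pos i.2]
        exact (hxF _ q).1 hi
      · rintro ⟨i, hi, hq⟩
        rw [dif_pos hi] at hq
        exact ⟨⟨i, hi⟩, (hxF _ q).2 hq⟩

theorem GT1_regular {𝓖 : Set (Finset ℕ)} (h : IsRegularFamily 𝓖)
    (hs : ∀ n, ({n} : Finset ℕ) ∈ 𝓖) :
    IsRegularFamily (sch 𝓖) ∧ ∀ n, ({n} : Finset ℕ) ∈ sch 𝓖 := by
  classical
  have hempty : (∅ : Finset ℕ) ∈ 𝓖 := h.hereditary {0} (hs 0) ∅ (Finset.empty_subset _)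
  refine ⟨⟨?_, ?_, ?_⟩, ?_⟩
  · rintro F ⟨n, G, hG, hGs, rfl, hn⟩ F' hF'
    refine ⟨n, fun i => G i ∩ F', fun i hi => h.hereditary _ (hG i hi) _ Finset.inter_subset_left,
      ?_, ?_, fun p hp => hn p (hF' hp)⟩
    · intro i j hij hj a ha c hc
      exact hGs i j hij hj a (Finset.mem_inter.1 ha).1 c (Finset.mem_inter.1 hc).1
    · ext q
      simp only [Finset.mem_biUnion, Finset.mem_inter, Finset.mem_range]
      constructor
      · intro hq
        obtain ⟨i, hi, hqi⟩ := Finset.mem_biUnion.1 (hF' hq)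
        exact ⟨i, Finset.mem_range.1 hi, hqi, hq⟩
      · rintro ⟨i, _, _, hq⟩
        exact hq
  · rintro F ⟨n, G, hG, hGs, rfl, hn⟩ φ hφ hφ2
    have hsub : ∀ i < n, G i ⊆ (Finset.range n).biUnion G := fun i hi =>
      Finset.subset_biUnion_of_mem G (Finset.mem_range.2 hi)
    refine ⟨n, fun i => (G i).image φ, ?_, ?_, ?_, ?_⟩
    · intro i hi
      refine h.spreading (G i) (hG i hi) φ ?_ fun q hq => hφ2 q (hsub i hi hq)
      intro a ha c hc hac
      exact hφ (hsub i hi ha) (hsub i hi hc) hac
    · intro i j hij hj a ha c hc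
      obtain ⟨a', ha', rfl⟩ := Finset.mem_image.1 ha
      obtain ⟨c', hc', rfl⟩ := Finset.mem_image.1 hc
      exact hφ (hsub i (hij.trans hj) ha') (hsub j hj hc') (hGs i j hij hj a' ha' c' hc')
    · rw [Finset.biUnion_image.symm]
    · intro p hp
      obtain ⟨q, hq, rfl⟩ := Finset.mem_image.1 hp
      have h1 := hn q hq
      have h2 := hφ2 q hq
      omega
  · apply IsClosed.isCompact
    refine GT5_closed _ ?_ (fun p => {χ : ℕ → Bool | ∃ G : ℕ → Finset ℕ, (∀ i < p + 1, G i ∈ 𝓖) ∧
      (∀ i j, i < j → j < p + 1 → ∀ a ∈ G i, ∀ c ∈ G j, a < c) ∧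
      ∀ q, χ q = true ↔ q ∈ (Finset.range (p + 1)).biUnion G}) ?_ ?_ ?_
    · exact ⟨∅, ⟨0, fun _ => ∅, by simp, by simp, by simp, by simp⟩, by simp⟩
    · intro p
      exact GT1_closed h (p + 1)
    · rintro p χ ⟨G, hG, hGs, hχ⟩ hp hmin
      refine ⟨(Finset.range (p + 1)).biUnion G, ⟨p + 1, G, hG, hGs, rfl, ?_⟩, hχ⟩
      intro q hq
      by_contra hcon
      have h3 := hmin q (by omega)
      rw [(hχ q).2 hq] at h3
      exact Bool.noConfusion h3
    · rintro p χ ⟨F, ⟨n, G, hG, hGs, rfl, hn⟩, hχ⟩ hp hmin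
      have hnp : n ≤ p + 1 := hn p ((hχ p).1 hp)
      refine ⟨fun i => if i < n then G i else ∅, ?_, ?_, ?_⟩
      · intro i _
        by_cases hi : i < n
        · simp only [hi, if_true]
          exact hG i hi
        · simp only [hi, if_false]
          exact hempty
      · intro i j hij _ a ha c hc
        by_cases hj : j < n
        · have hi := hij.trans hj
          simp only [hi, hj, if_true] at ha hc
          exact hGs i j hij hj a ha c hc
        · simp only [hj, if_false] at hc
          exact absurd hc (Finset.notMem_empty _)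
      · intro q
        rw [hχ q]
        simp only [Finset.mem_biUnion, Finset.mem_range]
        constructor
        · rintro ⟨i, hi, hq⟩
          refine ⟨i, by omega, ?_⟩
          rw [if_pos hi]
          exact hq
        · rintro ⟨i, _, hq⟩
          by_cases hi : i < n
          · rw [if_pos hi] at hq
            exact ⟨i, hi, hq⟩
          · rw [if_neg hi] at hq
            exact absurd hq (Finset.notMem_empty _)
  · intro n
    refine ⟨1, fun _ => {n}, fun _ _ => hs n, fun i j hij hj => by omega, ?_, fun p _ => by omega⟩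
    simp

end Pool.Agent.H182R2.CG
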