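import Pool.Agent.H182R2.CG.GDefs

namespace Pool.Agent.H182R2.CG

open Finset Pool.Agent.H182R2.CB

theorem GT2_mult {𝓖 : Set (Finset ℕ)} (h : IsRegularFamily 𝓖)
    (hs : ∀ n, ({n} : Finset ℕ) ∈ 𝓖) : IsMult (sch 𝓖) := by
  classical
  have hempty : (∅ : Finset ℕ) ∈ 𝓖 := h.hereditary {0} (hs 0) ∅ (Finset.empty_subset _)
  refine ⟨⟨{1, 2}, ⟨2, fun i => if i = 0 then {1} else {2}, ?_, ?_, ?_, ?_⟩, ?_⟩, ?_⟩
  · intro i _
    by_cases h0 : i = 0
    · simp only [h0, if_true]
      exact hs 1
    · simp only [h0, if_false]
      exact hs 2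
  · intro i j hij hj a ha d hd
    have hi : i = 0 := by omega
    have hj' : ¬ j = 0 := by omega
    simp only [hi, hj', if_true, if_false, Finset.mem_singleton] at ha hd
    omega
  · ext x
    simp only [Finset.mem_insert, Finset.mem_singleton, Finset.mem_biUnion, Finset.mem_range]
    constructor
    · rintro (rfl | rfl)
      · exact ⟨0, by omega, by simp⟩
      · exact ⟨1, by omega, by simp⟩
    · rintro ⟨i, hi, hx⟩
      by_cases h0 : i = 0
      · simp only [h0, if_true, Finset.mem_singleton] at hx
        exact Or.inl hx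
      · simp only [h0, if_false, Finset.mem_singleton] at hx
        exact Or.inr hx
  · intro p hp
    simp only [Finset.mem_insert, Finset.mem_singleton] at hp
    omega
  · decide
  · intro b m
    refine ⟨m * (b + 1), fun G hG hsucc => ?_⟩
    have hex : ∀ i : ℕ, ∃ H : ℕ → Finset ℕ, i < m → ((∀ j < b + 1, H j ∈ 𝓖) ∧
        (∀ j j', j < j' → j' < b + 1 → ∀ a ∈ H j, ∀ d ∈ H j', a < d) ∧
        G i = (range (b + 1)).biUnion H) := by
      intro i
      by_cases hi : i < m
      swap
      · exact ⟨fun _ => ∅, fun h' => absurd h' hi⟩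
      obtain ⟨F, ⟨n, H, hH, hHs, hF, hn⟩, hsub, p, hp, hpb⟩ := (hG i hi).1
      have hnb : n ≤ b + 1 := (hn p hp).trans (by omega)
      refine ⟨fun j => if j < n then G i ∩ H j else ∅, fun _ => ⟨?_, ?_, ?_⟩⟩
      · intro j _
        by_cases hj : j < n
        · simp only [hj, if_true]
          exact h.hereditary _ (hH j hj) _ Finset.inter_subset_right
        · simp only [hj, if_false]
          exact hempty
      · intro j j' hjj _ a ha d hd
        by_cases hj' : j' < n
        · have hj : j < n := hjj.trans hj'
          simp only [hj, hj', if_true] at ha hd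
          exact hHs j j' hjj hj' a (Finset.mem_inter.1 ha).2 d (Finset.mem_inter.1 hd).2
        · simp only [hj', if_false] at hd
          exact absurd hd (Finset.notMem_empty _)
      · ext x
        simp only [Finset.mem_biUnion, Finset.mem_range]
        constructor
        · intro hx
          have hxF := hsub hx
          rw [hF] at hxF
          obtain ⟨j, hj, hxj⟩ := Finset.mem_biUnion.1 hxF
          rw [Finset.mem_range] at hj
          refine ⟨j, by omega, ?_⟩
          simp only [hj, if_true]
          exact Finset.mem_inter.2 ⟨hx, hxj⟩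
        · rintro ⟨j, _, hxj⟩
          by_cases hj : j < n
          · simp only [hj, if_true] at hxj
            exact (Finset.mem_inter.1 hxj).1
          · simp only [hj, if_false] at hxj
            exact absurd hxj (Finset.notMem_empty _)
    choose H hH using hex
    have hdiv : ∀ l, l < m * (b + 1) → l / (b + 1) < m := fun l hl =>
      Nat.div_lt_of_lt_mul (by rwa [mul_comm] at hl)
    have hmod : ∀ l, l % (b + 1) < b + 1 := fun l => Nat.mod_lt _ (Nat.succ_pos b)
    have hsubG : ∀ l, l < m * (b + 1) → H (l / (b + 1)) (l % (b + 1)) ⊆ G (l / (b + 1)) := by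
      intro l hl
      rw [(hH _ (hdiv l hl)).2.2]
      exact Finset.subset_biUnion_of_mem (H (l / (b + 1))) (Finset.mem_range.2 (hmod l))
    refine ⟨m * (b + 1), fun l => H (l / (b + 1)) (l % (b + 1)), ?_, ?_, ?_, ?_⟩
    · intro l hl
      exact (hH _ (hdiv l hl)).1 _ (hmod l)
    · intro l l' hll hl' a ha d hd
      have hl := hll.trans hl'
      have hle : l / (b + 1) ≤ l' / (b + 1) := Nat.div_le_div_right hll.le
      rcases hle.lt_or_eq with hlt | heq
      · exact hsucc _ _ hlt (hdiv l' hl') a (hsubG l hl ha) d (hsubG l' hl' hd)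
      · have hmm : l % (b + 1) < l' % (b + 1) := by
          have e1 := Nat.div_add_mod l (b + 1)
          have e2 := Nat.div_add_mod l' (b + 1)
          rw [heq] at e1
          omega
        simp only at ha hd
        rw [heq] at ha
        exact (hH _ (hdiv l' hl')).2.1 _ _ hmm (hmod l') a ha d hd
    · ext x
      simp only [Finset.mem_biUnion, Finset.mem_range]
      constructor
      · rintro ⟨i, hi, hx⟩
        rw [(hH i hi).2.2] at hx
        obtain ⟨j, hj, hxj⟩ := Finset.mem_biUnion.1 hx
        rw [Finset.mem_range] at hj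
        have e1 : (i * (b + 1) + j) / (b + 1) = i := by
          rw [mul_comm, Nat.mul_add_div (Nat.succ_pos b), Nat.div_eq_of_lt hj, add_zero]
        have e2 : (i * (b + 1) + j) % (b + 1) = j := by
          rw [mul_comm, Nat.mul_add_mod, Nat.mod_eq_of_lt hj]
        refine ⟨i * (b + 1) + j, ?_, ?_⟩
        · calc i * (b + 1) + j < i * (b + 1) + (b + 1) := by omega
            _ = (i + 1) * (b + 1) := by ring
            _ ≤ m * (b + 1) := Nat.mul_le_mul_right _ hi
        · rw [e1, e2]
          exact hxj
      · rintro ⟨l, hl, hx⟩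
        exact ⟨l / (b + 1), hdiv l hl, hsubG l hl hx⟩
    · intro x hx
      obtain ⟨i, hi, hxi⟩ := Finset.mem_biUnion.1 hx
      have := (hG i (Finset.mem_range.1 hi)).2 x hxi
      omega

end Pool.Agent.H182R2.CG
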