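import Pool.Agent.H182R2.CG.GDefs

namespace Pool.Agent.H182R2.CG

open Finset Pool.Agent.H182R2.CB

/-- small sets far enough out are in the family -/
theorem GT3_small {𝓕 : Set (Finset ℕ)} (h : IsRegularFamily 𝓕)
    (hU : ∀ m : ℕ, ∃ F ∈ 𝓕, m ≤ F.card) (c : ℕ) :
    ∃ n : ℕ, ∀ H : Finset ℕ, H.card ≤ c → (∀ k ∈ H, n ≤ k) → H ∈ 𝓕 := by
  classical
  obtain ⟨F₀, hF₀, hc₀⟩ := hU c
  refine ⟨F₀.sup id + 1, fun H hHc hHn => ?_⟩
  obtain ⟨F₁, hF₁, hF₁c⟩ := Finset.exists_subset_card_eq (hHc.trans hc₀)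
  have hF₁mem := h.hereditary F₀ hF₀ F₁ hF₁
  -- the order isomorphism
  let e₁ := F₁.orderIsoOfFin hF₁c
  let e₂ := H.orderIsoOfFin rfl
  let φ : ℕ → ℕ := fun i => if hi : i ∈ F₁ then (e₂ (e₁.symm ⟨i, hi⟩) : ℕ) else i
  have hφ : ∀ i (hi : i ∈ F₁), φ i = (e₂ (e₁.symm ⟨i, hi⟩) : ℕ) := fun i hi => by
    simp only [φ, dif_pos hi]
  have hφH : ∀ i ∈ F₁, φ i ∈ H := by
    intro i hi
    rw [hφ i hi]
    exact (e₂ (e₁.symm ⟨i, hi⟩)).2
  have hmono : StrictMonoOn φ (F₁ : Set ℕ) := by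
    intro i hi j hj hij
    rw [hφ i hi, hφ j hj]
    have h1 : e₁.symm ⟨i, hi⟩ < e₁.symm ⟨j, hj⟩ := e₁.symm.lt_iff_lt.2 hij
    exact e₂.lt_iff_lt.2 h1
  have himg : F₁.image φ = H := by
    apply Finset.eq_of_subset_of_card_le
    · intro x hx
      obtain ⟨i, hi, rfl⟩ := Finset.mem_image.1 hx
      exact hφH i hi
    · rw [Finset.card_image_of_injOn hmono.injOn, hF₁c]
  rw [← himg]
  refine h.spreading F₁ hF₁mem φ hmono ?_
  intro i hi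
  have h1 := hHn _ (hφH i hi)
  have h2 : i ≤ F₀.sup id := Finset.le_sup (f := id) (hF₁ hi)
  omega

theorem GT3_mult {𝓕 : Set (Finset ℕ)} (h : IsRegularFamily 𝓕)
    (hU : ∀ m : ℕ, ∃ F ∈ 𝓕, m ≤ F.card)
    (hL : ∀ n : ℕ, ∃ c : ℕ, ∀ F ∈ 𝓕, n ∈ F → F.card ≤ c) : IsMult 𝓕 := by
  refine ⟨hU 2, fun b m => ?_⟩
  choose c hc using hL
  obtain ⟨n, hn⟩ := GT3_small h hU (m * ∑ p ∈ range (b + 1), c p)
  refine ⟨n, fun G hG _ => hn _ ?_ ?_⟩
  · refine Finset.card_biUnion_le.trans ?_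
    have h1 : ∑ i ∈ range m, (G i).card ≤ ∑ i ∈ range m, ∑ p ∈ range (b + 1), c p := by
      refine Finset.sum_le_sum fun i hi => ?_
      obtain ⟨F, hF, hsub, p, hp, hpb⟩ := (hG i (Finset.mem_range.1 hi)).1
      refine (Finset.card_le_card hsub).trans ((hc p F hF hp).trans ?_)
      exact Finset.single_le_sum (f := c) (fun _ _ => Nat.zero_le _)
        (Finset.mem_range.2 (by omega))
    refine h1.trans ?_
    rw [Finset.sum_const, Finset.card_range, smul_eq_mul]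
  · intro k hk
    obtain ⟨i, hi, hki⟩ := Finset.mem_biUnion.1 hk
    exact (hG i (Finset.mem_range.1 hi)).2 k hki

end Pool.Agent.H182R2.CG
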