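import Pool.Agent.H182R2.CG.GDefs

namespace Pool.Agent.H182R2.CG

open Finset Pool.Agent.H182R2.CB

theorem GT5_one {𝓖 : Set (Finset ℕ)} {F : Finset ℕ} (hF : F ∈ 𝓖) : F ∈ sch 𝓖 := by
  refine ⟨1, fun _ => F, fun _ _ => hF, fun i j hij hj => by omega, ?_, fun p _ => by omega⟩
  simp

theorem GT5_mult {𝓖 : ℕ → Set (Finset ℕ)} (h : ∀ n, IsRegularFamily (𝓖 n))
    (hs : ∀ n p, ({p} : Finset ℕ) ∈ 𝓖 n)
    (hE : ∀ b : ℕ, ∃ n' N : ℕ, ∀ n ≤ b, ∀ F ∈ sch (𝓖 n), (∀ p ∈ F, N ≤ p) → F ∈ 𝓖 n') :
    IsMult (limFam 𝓖) := by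
  classical
  constructor
  · obtain ⟨n', N, hn'⟩ := hE 0
    obtain ⟨p, hp⟩ : ∃ p, p = N + n' + 1 := ⟨_, rfl⟩
    refine ⟨{p, p + 1}, ⟨n', hn' 0 le_rfl _ ?_ ?_, ?_⟩, ?_⟩
    · refine ⟨2, fun i => if i = 0 then {p} else {p + 1}, ?_, ?_, ?_, ?_⟩
      · intro i _
        by_cases h0 : i = 0
        · simp only [h0, if_true]
          exact hs 0 p
        · simp only [h0, if_false]
          exact hs 0 (p + 1)
      · intro i j hij hj a ha d hd
        have hi : i = 0 := by omega
        have hj' : ¬ j = 0 := by omega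
        simp only [hi, hj', if_true, if_false, Finset.mem_singleton] at ha hd
        omega
      · ext x
        simp only [Finset.mem_insert, Finset.mem_singleton, Finset.mem_biUnion, Finset.mem_range]
        constructor
        · rintro (rfl | rfl)
          · exact ⟨0, by omega, by simp⟩
          · exact ⟨1, by omega, by simp⟩
        · rintro ⟨i, hi, hx⟩
          by_cases h0 : i = 0
          · simp only [h0, if_true, Finset.mem_singleton] at hx
            exact Or.inl hx
          · simp only [h0, if_false, Finset.mem_singleton] at hx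
            exact Or.inr hx
      · intro q hq
        simp only [Finset.mem_insert, Finset.mem_singleton] at hq
        omega
    · intro q hq
      simp only [Finset.mem_insert, Finset.mem_singleton] at hq
      omega
    · intro q hq
      simp only [Finset.mem_insert, Finset.mem_singleton] at hq
      omega
    · rw [Finset.card_pair (by omega)]
  · intro b m
    obtain ⟨n', N, h1⟩ := hE b
    obtain ⟨n'', N', h2⟩ := hE n'
    refine ⟨N + N' + m + n'', fun G hG hsucc => ?_⟩
    have hGn' : ∀ i < m, G i ∈ 𝓖 n' := by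
      intro i hi
      obtain ⟨F, ⟨n, hF, hnF⟩, hsub, p, hp, hpb⟩ := (hG i hi).1
      have hn : n ≤ b := (hnF p hp).trans hpb
      refine h1 n hn (G i) (GT5_one ((h n).hereditary F hF _ hsub)) ?_
      intro q hq
      have := (hG i hi).2 q hq
      omega
    have hall : ∀ p ∈ (range m).biUnion G, N + N' + m + n'' ≤ p := by
      intro p hp
      obtain ⟨i, hi, hpi⟩ := Finset.mem_biUnion.1 hp
      exact (hG i (Finset.mem_range.1 hi)).2 p hpi
    refine ⟨n'', h2 n' le_rfl _ ⟨m, G, hGn', hsucc, rfl, ?_⟩ ?_, ?_⟩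
    · intro p hp
      have := hall p hp
      omega
    · intro p hp
      have := hall p hp
      omega
    · intro p hp
      have := hall p hp
      omega

end Pool.Agent.H182R2.CG
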