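import Pool.Agent.H182R2.CG.GDefs
import Pool.Agent.H182R2.CM.GT3_mult

namespace Pool.Agent.H182R2.CG

open Finset Filter Topology Pool.Agent.H182R2.CB

/-- A hereditary subfamily of a compact family is compact. -/
theorem GT6_compact {𝓔 𝓕 : Set (Finset ℕ)} (h : IsRegularFamily 𝓕) (hsub : 𝓔 ⊆ 𝓕)
    (her : ∀ F ∈ 𝓔, ∀ G ⊆ F, G ∈ 𝓔) :
    IsCompact {χ : ℕ → Bool | ∃ F ∈ 𝓔, ∀ i, χ i = true ↔ i ∈ F} := by
  have hK := h.compact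
  have hsubK : {χ : ℕ → Bool | ∃ F ∈ 𝓔, ∀ i, χ i = true ↔ i ∈ F} ⊆
      {χ : ℕ → Bool | ∃ F ∈ 𝓕, ∀ i, χ i = true ↔ i ∈ F} := by
    rintro χ ⟨F, hF, hχ⟩
    exact ⟨F, hsub hF, hχ⟩
  refine hK.of_isClosed_subset ?_ hsubK
  rw [← isOpen_compl_iff, isOpen_iff_mem_nhds]
  intro χ hχ
  by_cases hc : χ ∈ {χ : ℕ → Bool | ∃ F ∈ 𝓕, ∀ i, χ i = true ↔ i ∈ F}
  · obtain ⟨F, hF, hχF⟩ := hc
    have hopen : IsOpen {ψ : ℕ → Bool | ∀ i ∈ F, ψ i = χ i} := by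
      have : {ψ : ℕ → Bool | ∀ i ∈ F, ψ i = χ i} = ⋂ i ∈ F, {ψ : ℕ → Bool | ψ i = χ i} := by
        ext ψ
        simp
      rw [this]
      refine isOpen_biInter_finset fun i _ => ?_
      have h1 : IsOpen ((fun ψ : ℕ → Bool => ψ i) ⁻¹' {χ i}) :=
        (isOpen_discrete ({χ i} : Set Bool)).preimage (continuous_apply i)
      have h2 : {ψ : ℕ → Bool | ψ i = χ i} = (fun ψ : ℕ → Bool => ψ i) ⁻¹' {χ i} := by
        ext ψ
        simp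
      rw [h2]
      exact h1
    refine Filter.mem_of_superset (hopen.mem_nhds (fun i _ => rfl)) ?_
    intro ψ hψ
    rintro ⟨E, hE, hψE⟩
    apply hχ
    refine ⟨F, her E hE F ?_, hχF⟩
    intro i hi
    rw [← hψE i, hψ i hi]
    exact (hχF i).2 hi
  · exact Filter.mem_of_superset (hK.isClosed.isOpen_compl.mem_nhds hc) (fun ψ hψ hψ' =>
      hψ (hsubK hψ'))

theorem GT6 {𝓕 : Set (Finset ℕ)} (h : IsRegularFamily 𝓕) (hs : ∀ n, ({n} : Finset ℕ) ∈ 𝓕)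
    (hU : ∀ m : ℕ, ∃ F ∈ 𝓕, m ≤ F.card) (φ : ℕ → ℕ) (n : ℕ)
    (hφ : ∀ F ∈ 𝓕, ∃ G : ℕ → Finset ℕ, (∀ i < n, ∀ p ∈ G i, (G i).card ≤ φ p) ∧
      F = (range n).biUnion G) :
    ∃ 𝓔 : Set (Finset ℕ), 𝓔 ⊆ 𝓕 ∧ IsRegularFamily 𝓔 ∧ (∀ n, ({n} : Finset ℕ) ∈ 𝓔) ∧ IsMult 𝓔 ∧
      ∀ F ∈ 𝓕, ∃ G : ℕ → Finset ℕ, (∀ i < n, G i ∈ 𝓔) ∧ F = (range n).biUnion G := by
  classical
  -- a monotone majorant of `φ`
  obtain ⟨f, hf1, hf2, hf3⟩ : ∃ f : ℕ → ℕ, Monotone f ∧ (∀ p, φ p ≤ f p) ∧ ∀ p, 1 ≤ f p := by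
    refine ⟨fun p => ∑ i ∈ range (p + 1), φ i + 1, ?_, ?_, ?_⟩
    · intro p q hpq
      refine Nat.succ_le_succ (Finset.sum_le_sum_of_subset ?_)
      exact Finset.range_subset_range.2 (by omega)
    · intro p
      have : φ p ≤ ∑ i ∈ range (p + 1), φ i :=
        Finset.single_le_sum (f := φ) (fun _ _ => Nat.zero_le _) (Finset.mem_range.2 (by omega))
      simp only
      omega
    · intro p
      simp
  have her : ∀ F ∈ {F | F ∈ 𝓕 ∧ ∀ p ∈ F, F.card ≤ f p}, ∀ G ⊆ F,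
      G ∈ {F | F ∈ 𝓕 ∧ ∀ p ∈ F, F.card ≤ f p} := by
    rintro F ⟨hF, hFc⟩ G hG
    exact ⟨h.hereditary F hF G hG, fun p hp => (Finset.card_le_card hG).trans (hFc p (hG hp))⟩
  have hreg : IsRegularFamily {F | F ∈ 𝓕 ∧ ∀ p ∈ F, F.card ≤ f p} := by
    refine ⟨her, ?_, GT6_compact h (fun F hF => hF.1) her⟩
    rintro F ⟨hF, hFc⟩ ψ hψ hψ2
    refine ⟨h.spreading F hF ψ hψ hψ2, ?_⟩
    intro p hp
    obtain ⟨i, hi, rfl⟩ := Finset.mem_image.1 hp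
    exact Finset.card_image_le.trans ((hFc i hi).trans (hf1 (hψ2 i hi)))
  have hsplit : ∀ F ∈ 𝓕, ∃ G : ℕ → Finset ℕ,
      (∀ i < n, G i ∈ {F | F ∈ 𝓕 ∧ ∀ p ∈ F, F.card ≤ f p}) ∧ F = (range n).biUnion G := by
    intro F hF
    obtain ⟨G, hG1, hG2⟩ := hφ F hF
    refine ⟨G, fun i hi => ⟨h.hereditary F hF _ ?_, fun p hp => (hG1 i hi p hp).trans (hf2 p)⟩, hG2⟩
    rw [hG2]
    exact Finset.subset_biUnion_of_mem G (Finset.mem_range.2 hi)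
  refine ⟨{F | F ∈ 𝓕 ∧ ∀ p ∈ F, F.card ≤ f p}, fun F hF => hF.1, hreg, ?_, ?_, hsplit⟩
  · intro p
    refine ⟨hs p, fun q _ => ?_⟩
    rw [Finset.card_singleton]
    exact hf3 q
  · refine GT3_mult hreg ?_ ?_
    · intro m
      obtain ⟨F, hF, hm⟩ := hU (n * m + 1)
      obtain ⟨G, hG1, hG2⟩ := hsplit F hF
      by_contra hcon
      push Not at hcon
      have h1 : F.card ≤ ∑ i ∈ range n, (G i).card := by
        rw [hG2]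
        exact Finset.card_biUnion_le
      have h2 : ∑ i ∈ range n, (G i).card ≤ ∑ i ∈ range n, m := by
        refine Finset.sum_le_sum fun i hi => ?_
        exact (hcon (G i) (hG1 i (Finset.mem_range.1 hi))).le
      rw [Finset.sum_const, Finset.card_range, smul_eq_mul] at h2
      omega
    · intro p
      exact ⟨f p, fun F hF hp => hF.2 p hp⟩

end Pool.Agent.H182R2.CG
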