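import Pool.Agent.H182R2.CB.Defs

namespace Pool.Agent.H182R2.CG

open Pool.Agent.H182R2.CB

theorem GTRA {X Y : Type*} [NormedAddCommGroup X] [NormedSpace ℝ X] [NormedAddCommGroup Y]
    [NormedSpace ℝ Y] (T : X ≃L[ℝ] Y) (Γ : Type*) [Group Γ] (h : Displayable X Γ) :
    Displayable Y Γ := by
  obtain ⟨N, ⟨m, M, hm, hN⟩, ⟨f⟩⟩ := h
  obtain ⟨a, ha0, ha⟩ : ∃ a : ℝ, 0 < a ∧ ∀ x, ‖T x‖ ≤ a * ‖x‖ :=
    ⟨‖(T : X →L[ℝ] Y)‖ + 1, by positivity, fun x =>
      ((T : X →L[ℝ] Y).le_opNorm x).trans (mul_le_mul_of_nonneg_right (by linarith) (norm_nonneg _))⟩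
  obtain ⟨b, hb0, hb⟩ : ∃ b : ℝ, 0 < b ∧ ∀ y, ‖T.symm y‖ ≤ b * ‖y‖ :=
    ⟨‖(T.symm : Y →L[ℝ] X)‖ + 1, by positivity, fun x =>
      ((T.symm : Y →L[ℝ] X).le_opNorm x).trans
        (mul_le_mul_of_nonneg_right (by linarith) (norm_nonneg _))⟩
  refine ⟨N.comp (T.symm.toLinearEquiv : Y →ₗ[ℝ] X), ⟨m / a, max M 0 * b, by positivity, ?_⟩, ⟨?_⟩⟩
  · intro y
    have h1 := hN (T.symm y)
    have h2 : ‖y‖ ≤ a * ‖T.symm y‖ := by
      have := ha (T.symm y)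
      rwa [T.apply_symm_apply] at this
    have h3 : (N.comp (T.symm.toLinearEquiv : Y →ₗ[ℝ] X)) y = N (T.symm y) := rfl
    rw [h3]
    constructor
    · refine le_trans ?_ h1.1
      rw [div_mul_eq_mul_div, div_le_iff₀ ha0]
      calc m * ‖y‖ ≤ m * (a * ‖T.symm y‖) := mul_le_mul_of_nonneg_left h2 hm.le
        _ = m * ‖T.symm y‖ * a := by ring
    · refine h1.2.trans ?_
      calc M * ‖T.symm y‖ ≤ max M 0 * ‖T.symm y‖ :=
            mul_le_mul_of_nonneg_right (le_max_left _ _) (norm_nonneg _)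
        _ ≤ max M 0 * (b * ‖y‖) := mul_le_mul_of_nonneg_left (hb y) (le_max_right _ _)
        _ = max M 0 * b * ‖y‖ := by ring
  · refine f.trans
      { toFun := fun U => ⟨T.toLinearEquiv.symm.trans ((U : X ≃ₗ[ℝ] X).trans T.toLinearEquiv), ?_⟩
        invFun := fun V => ⟨T.toLinearEquiv.trans ((V : Y ≃ₗ[ℝ] Y).trans T.toLinearEquiv.symm), ?_⟩
        left_inv := ?_
        right_inv := ?_
        map_mul' := ?_ }
    · intro y
      show N (T.symm (T ((U : X ≃ₗ[ℝ] X) (T.symm y)))) = N (T.symm y)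
      rw [T.symm_apply_apply]
      exact U.2 _
    · intro x
      have h4 : N (T.symm ((V : Y ≃ₗ[ℝ] Y) (T x))) = N (T.symm (T x)) := V.2 (T x)
      rw [T.symm_apply_apply] at h4
      exact h4
    · intro U
      apply Subtype.ext
      apply LinearEquiv.ext
      intro x
      show T.symm (T ((U : X ≃ₗ[ℝ] X) (T.symm (T x)))) = (U : X ≃ₗ[ℝ] X) x
      rw [T.symm_apply_apply, T.symm_apply_apply]
    · intro V
      apply Subtype.ext
      apply LinearEquiv.ext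
      intro y
      show T (T.symm ((V : Y ≃ₗ[ℝ] Y) (T (T.symm y)))) = (V : Y ≃ₗ[ℝ] Y) y
      rw [T.apply_symm_apply, T.apply_symm_apply]
    · intro U V
      apply Subtype.ext
      apply LinearEquiv.ext
      intro y
      show T ((U : X ≃ₗ[ℝ] X) ((V : X ≃ₗ[ℝ] X) (T.symm y))) =
        T ((U : X ≃ₗ[ℝ] X) (T.symm (T ((V : X ≃ₗ[ℝ] X) (T.symm y)))))
      rw [T.symm_apply_apply]

end Pool.Agent.H182R2.CG
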