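import Pool.Agent.H182R2.CM.GF4
import Pool.Agent.H182R2.CM.GREN
import Pool.Agent.H182R2.CM.GTRA
import Pool.Agent.H182R2.CM.GT1_regular
import Pool.Agent.H182R2.CM.GT2_mult
import Pool.Agent.H182R2.CM.GT3_mult
import Pool.Agent.H182R2.CM.GT5_regular
import Pool.Agent.H182R2.CM.GT5_mult
import Pool.Agent.H182R2.CM.GT6

/-!
# Essentially multiplicative families, and the main theorem
-/

namespace Pool.Agent.H182R2.CG

open Finset Pool.Agent.H182R2.CB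

/-- `𝓕` contains a multiplicative regular family `𝓔` (with all singletons) such that, for some
`n`, every member of `𝓕` is a union of `n` members of `𝓔`. -/
def EssMult (𝓕 : Set (Finset ℕ)) : Prop :=
  ∃ 𝓔 : Set (Finset ℕ), 𝓔 ⊆ 𝓕 ∧ IsRegularFamily 𝓔 ∧ (∀ n, ({n} : Finset ℕ) ∈ 𝓔) ∧ IsMult 𝓔 ∧
    ∃ n : ℕ, ∀ F ∈ 𝓕, ∃ G : ℕ → Finset ℕ, (∀ i < n, G i ∈ 𝓔) ∧ F = (range n).biUnion G

theorem EssMult.of_mult {𝓕 : Set (Finset ℕ)} (h : IsRegularFamily 𝓕)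
    (hs : ∀ n, ({n} : Finset ℕ) ∈ 𝓕) (hm : IsMult 𝓕) : EssMult 𝓕 := by
  refine ⟨𝓕, Set.Subset.rfl, h, hs, hm, 1, fun F hF => ⟨fun _ => F, fun _ _ => hF, ?_⟩⟩
  simp

theorem GM_schreier : IsMult schreier := by
  refine GT3_mult S1_regular.1 ?_ ?_
  · intro m
    refine ⟨Finset.Ico m (2 * m), ?_, ?_⟩
    · intro i hi
      rw [Nat.card_Ico]
      have := (Finset.mem_Ico.1 hi).1
      omega
    · rw [Nat.card_Ico]
      omega
  · intro n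
    exact ⟨n + 1, fun F hF hn => hF n hn⟩

theorem GM_split {𝓕 : Set (Finset ℕ)} (h : IsRegularFamily 𝓕) (hs : ∀ n, ({n} : Finset ℕ) ∈ 𝓕)
    (hU : ∀ m : ℕ, ∃ F ∈ 𝓕, m ≤ F.card) (φ : ℕ → ℕ) (n : ℕ)
    (hφ : ∀ F ∈ 𝓕, ∃ G : ℕ → Finset ℕ, (∀ i < n, ∀ p ∈ G i, (G i).card ≤ φ p) ∧
      F = (range n).biUnion G) : EssMult 𝓕 := by
  obtain ⟨𝓔, h1, h2, h3, h4, h5⟩ := GT6 h hs hU φ n hφ
  exact ⟨𝓔, h1, h2, h3, h4, n, h5⟩

theorem GM_gen {𝓕 : Set (Finset ℕ)} (h : IsRegularFamily 𝓕) (he : EssMult 𝓕) {X : Type*}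
    [NormedAddCommGroup X] [NormedSpace ℝ X] [CompleteSpace X] {e : ℕ → X}
    (hX : IsCombinatorialSpace 𝓕 X e) {Γ : Type*} [Group Γ]
    (hκ : ∀ c : Γ, (∀ g, c * g = g * c) → c * c = 1 → c ≠ 1 →
      ∃ κ : signedPerm →* Γ, κ ⟨nuPerm, nuPerm_mem⟩ = c) :
    ¬ Displayable X Γ := by
  obtain ⟨𝓔, h1, h2, h3, h4, n, h5⟩ := he
  obtain ⟨Y, i1, i2, i3, e', hY, ⟨T⟩⟩ := GREN h2 h3 h h1 n h5 hX
  intro hd
  exact GF4_gen h2 h3 h4 hY hκ (GTRA T Γ hd)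

theorem GM_fixed {𝓕 : Set (Finset ℕ)} (h : IsRegularFamily 𝓕) (he : EssMult 𝓕) {X : Type*}
    [NormedAddCommGroup X] [NormedSpace ℝ X] [CompleteSpace X] {e : ℕ → X}
    (hX : IsCombinatorialSpace 𝓕 X e) (ρ : Equiv.Perm ℕ →* (X ≃ₗ[ℝ] X)) (K : ℝ)
    (hK : ∀ g x, ‖ρ g x‖ ≤ K * ‖x‖) : ∃ y : X, y ≠ 0 ∧ ∀ g, ρ g y = y := by
  obtain ⟨𝓔, h1, h2, h3, h4, n, h5⟩ := he
  obtain ⟨Y, i1, i2, i3, e', hY, ⟨T⟩⟩ := GREN h2 h3 h h1 n h5 hX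
  obtain ⟨S⟩ := GS2_coord h2 h3 h4 hY
  have hsep : TopologicalSpace.SeparableSpace Y := S3_separable hY
  -- the conjugate representation
  obtain ⟨a, ha0, ha⟩ : ∃ a : ℝ, 0 < a ∧ ∀ x, ‖T x‖ ≤ a * ‖x‖ :=
    ⟨‖(T : X →L[ℝ] Y)‖ + 1, by positivity, fun x =>
      ((T : X →L[ℝ] Y).le_opNorm x).trans (mul_le_mul_of_nonneg_right (by linarith) (norm_nonneg _))⟩
  obtain ⟨b, hb0, hb⟩ : ∃ b : ℝ, 0 < b ∧ ∀ y, ‖T.symm y‖ ≤ b * ‖y‖ :=
    ⟨‖(T.symm : Y →L[ℝ] X)‖ + 1, by positivity, fun x =>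
      ((T.symm : Y →L[ℝ] X).le_opNorm x).trans
        (mul_le_mul_of_nonneg_right (by linarith) (norm_nonneg _))⟩
  let ρ' : Equiv.Perm ℕ →* (Y ≃ₗ[ℝ] Y) :=
    { toFun := fun g => T.toLinearEquiv.symm.trans ((ρ g).trans T.toLinearEquiv)
      map_one' := by
        apply LinearEquiv.ext
        intro y
        simp
      map_mul' := by
        intro g g'
        apply LinearEquiv.ext
        intro y
        simp }
  have hρ' : ∀ g y, ρ' g y = T (ρ g (T.symm y)) := fun g y => rfl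
  have hbd : ∀ g y, ‖ρ' g y‖ ≤ max 1 (a * (max K 0 * b)) * ‖y‖ := by
    intro g y
    rw [hρ']
    have h6 : ‖ρ g (T.symm y)‖ ≤ max K 0 * ‖T.symm y‖ :=
      (hK g _).trans (mul_le_mul_of_nonneg_right (le_max_left _ _) (norm_nonneg _))
    calc ‖T (ρ g (T.symm y))‖ ≤ a * ‖ρ g (T.symm y)‖ := ha _
      _ ≤ a * (max K 0 * (b * ‖y‖)) := by
          refine mul_le_mul_of_nonneg_left (h6.trans ?_) ha0.le
          exact mul_le_mul_of_nonneg_left (hb y) (le_max_right _ _)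
      _ = a * (max K 0 * b) * ‖y‖ := by ring
      _ ≤ _ := mul_le_mul_of_nonneg_right (le_max_right _ _) (norm_nonneg _)
  obtain ⟨y, hy0, hy⟩ := GR11_fixed S
    { ρ := ρ'
      K := max 1 (a * (max K 0 * b))
      hK := le_max_left _ _
      bound := hbd
      cont := fun x ε hε => AC7_rep ρ' _ (le_max_left _ _) hbd x ε hε }
  refine ⟨T.symm y, ?_, ?_⟩
  · intro h0
    apply hy0
    rw [← T.apply_symm_apply y, h0, map_zero]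
  · intro g
    have h7 := hy g
    change ρ' g y = y at h7
    rw [hρ'] at h7
    have h8 := congrArg T.symm h7
    rwa [T.symm_apply_apply] at h8

end Pool.Agent.H182R2.CG
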