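import Pool.Agent.H182R2.CG.GDefs
import Pool.Agent.H182R2.CB.C1

namespace Pool.Agent.H182R2.CG

open Finset Filter Topology Pool.Agent.H182R2.CB

theorem GS2_wf {𝓕 : Set (Finset ℕ)} (h : IsRegularFamily 𝓕) (f : ℕ → ℕ) (hf : StrictMono f) :
    ∃ n, (range n).image f ∉ 𝓕 := by
  classical
  by_contra hcon
  push Not at hcon
  have hcl := h.compact.isClosed
  -- the limit
  have hlim : Tendsto (fun n : ℕ => (fun i => decide (i ∈ (range n).image f) : ℕ → Bool)) atTop
      (𝓝 (fun i => decide (i ∈ Set.range f))) := by
    rw [tendsto_pi_nhds]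
    intro i
    refine tendsto_const_nhds.congr' ?_
    filter_upwards [eventually_ge_atTop (i + 1)] with n hn
    congr 1
    apply propext
    constructor
    · rintro ⟨j, rfl⟩
      refine Finset.mem_image.2 ⟨j, Finset.mem_range.2 ?_, rfl⟩
      have := hf.le_apply (x := j)
      omega
    · intro hi
      obtain ⟨j, -, rfl⟩ := Finset.mem_image.1 hi
      exact ⟨j, rfl⟩
  have hmem := hcl.mem_of_tendsto hlim (Filter.Eventually.of_forall fun n =>
    ⟨(range n).image f, hcon n, fun i => by simp only [decide_eq_true_eq]⟩)
  obtain ⟨F, -, hF⟩ := hmem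
  have h1 : Set.range f ⊆ (F : Set ℕ) := by
    intro i hi
    rw [Finset.mem_coe, ← hF i]
    simpa using hi
  exact Set.infinite_range_of_injective hf.injective (F.finite_toSet.subset h1)

theorem GS2_coord {𝓕 : Set (Finset ℕ)} (h : IsRegularFamily 𝓕)
    (hs : ∀ n, ({n} : Finset ℕ) ∈ 𝓕) (hm : IsMult 𝓕) {X : Type*} [NormedAddCommGroup X]
    [NormedSpace ℝ X] {e : ℕ → X} (hX : IsCombinatorialSpace 𝓕 X e) : Nonempty (GCoord X) := by
  classical
  obtain ⟨coord, h1, h2, h3, h4⟩ := C1_coord h hs hX
  -- a pair
  obtain ⟨i, j, hij, hpair⟩ : ∃ i j : ℕ, i < j ∧ ({i, j} : Finset ℕ) ∈ 𝓕 := by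
    obtain ⟨F, hF, hc⟩ := hm.1
    obtain ⟨a, ha, b, hb, hab⟩ := Finset.one_lt_card.1 (show 1 < F.card by omega)
    rcases lt_or_gt_of_ne hab with hlt | hlt
    · refine ⟨a, b, hlt, h.hereditary F hF _ ?_⟩
      intro x hx
      rcases Finset.mem_insert.1 hx with rfl | hx
      · exact ha
      · rw [Finset.mem_singleton] at hx
        subst hx
        exact hb
    · refine ⟨b, a, hlt, h.hereditary F hF _ ?_⟩
      intro x hx
      rcases Finset.mem_insert.1 hx with rfl | hx
      · exact hb
      · rw [Finset.mem_singleton] at hx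
        subst hx
        exact ha
  have hjp : ∀ p, j < p → ({j, p} : Finset ℕ) ∈ 𝓕 := by
    intro p hp
    have h5 := h.spreading {i, j} hpair (fun k => if k = i then j else p) ?_ ?_
    · have h6 : ({i, j} : Finset ℕ).image (fun k => if k = i then j else p) = {j, p} := by
        rw [Finset.image_insert, Finset.image_singleton, if_pos rfl, if_neg hij.ne']
      rwa [h6] at h5
    · intro a ha b hb hab
      simp only [Finset.coe_insert, Finset.coe_singleton, Set.mem_insert_iff,
        Set.mem_singleton_iff] at ha hb
      rcases ha with rfl | rfl <;> rcases hb with rfl | rfl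
      · exact absurd hab (lt_irrefl _)
      · simp only [if_true, if_neg hij.ne']
        exact hp
      · omega
      · exact absurd hab (lt_irrefl _)
    · intro a ha
      rcases Finset.mem_insert.1 ha with rfl | ha
      · simp only [if_true]
        exact hij.le
      · rw [Finset.mem_singleton] at ha
        subst ha
        simp only [if_neg hij.ne']
        exact hp.le
  refine ⟨{ fam := 𝓕
            her := h.hereditary
            sing := hs
            wf := GS2_wf h
            b0 := j
            sing_loc := ?_
            mult := hm.2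
            co := coord
            u := e
            co_u := h1
            norm_u := ?_
            le := h2
            ge := h3
            tail := ?_ }⟩
  · intro p
    rcases le_or_gt p j with hp | hp
    · exact ⟨{p}, hs p, Finset.Subset.rfl, p, Finset.mem_singleton_self p, hp⟩
    · refine ⟨{j, p}, hjp p hp, ?_, j, Finset.mem_insert_self _ _, le_rfl⟩
      intro x hx
      rw [Finset.mem_singleton] at hx
      subst hx
      exact Finset.mem_insert_of_mem (Finset.mem_singleton_self _)
  · intro k
    obtain ⟨F, -, hF, hn⟩ := (C0_norm h hs hX (Finsupp.single k 1)).2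
    rw [Finsupp.linearCombination_single, one_smul] at hn
    rw [hn]
    have hF1 : F ⊆ {k} := hF.trans Finsupp.support_single_subset
    refine (Finset.sum_le_sum_of_subset_of_nonneg hF1 (fun _ _ _ => abs_nonneg _)).trans ?_
    rw [Finset.sum_singleton, Finsupp.single_eq_same, abs_one]
  · intro x ε hε
    obtain ⟨s, hs'⟩ := h4 x ε hε
    refine ⟨s.sup id + 1, fun F hF hi => hs' F hF ?_⟩
    rw [Finset.disjoint_left]
    intro i hiF his
    have h5 := hi i hiF
    have h6 : i ≤ s.sup id := Finset.le_sup (f := id) his
    omega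

end Pool.Agent.H182R2.CG
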